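import Pool.Agent.Helper89.DS.Defs

set_option autoImplicit false

/-! # Project DS: large exponents -/

namespace Pool.Agent.Helper89.DS

open Finset

/-- few large exponents: the vectors `≤ d` lie in `D` and there are `∏ (d q + 1)` of them
(`Finsupp.card_Iic`) -/
theorem big_exp (D : Finset (ℕ →₀ ℕ)) (hlow : ∀ d ∈ D, ∀ e : ℕ →₀ ℕ, e ≤ d → e ∈ D) (A0 : ℕ) :
    ∀ d ∈ D, (A0 + 2) ^ (d.support.filter (fun q => A0 < d q)).card ≤ D.card := by
  intro d hd
  have h1 : Finset.Iic d ⊆ D := fun e he => hlow d hd e (Finset.mem_Iic.1 he)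
  have h2 : (Finset.Iic d).card = ∏ q ∈ d.support, (d q + 1) := by
    rw [Finsupp.card_Iic]
    exact Finset.prod_congr rfl fun q _ => Nat.card_Iic (d q)
  calc (A0 + 2) ^ (d.support.filter (fun q => A0 < d q)).card
      = ∏ q ∈ d.support.filter (fun q => A0 < d q), (A0 + 2) := by rw [Finset.prod_const]
    _ ≤ ∏ q ∈ d.support.filter (fun q => A0 < d q), (d q + 1) :=
        Finset.prod_le_prod' fun q hq => by
          have := (Finset.mem_filter.1 hq).2
          omega
    _ ≤ ∏ q ∈ d.support, (d q + 1) :=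
        Finset.prod_le_prod_of_subset_of_one_le' (Finset.filter_subset _ _) fun q _ _ => by omega
    _ = (Finset.Iic d).card := h2.symm
    _ ≤ D.card := Finset.card_le_card h1

end Pool.Agent.Helper89.DS
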