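import Pool.Agent.Helper89.DS.Defs

set_option autoImplicit false

/-! # Project DS: few patterns -/

namespace Pool.Agent.Helper89.DS

open Finset

private theorem CntLe_sum (R k : ℕ) (y : ℝ) (hy : 0 ≤ y) :
    ∑ j ∈ Finset.range (k + 1), (R.choose j : ℝ) * y ^ j ≤ Real.exp ((R : ℝ) * y) := by
  have h1 : ∑ j ∈ Finset.range (k + 1), (R.choose j : ℝ) * y ^ j ≤
      ∑ j ∈ Finset.range (max k R + 1), (R.choose j : ℝ) * y ^ j := by
    apply Finset.sum_le_sum_of_subset_of_nonneg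
    · intro j hj
      rw [Finset.mem_range] at hj ⊢
      have := le_max_left k R
      omega
    · intro j _ _
      positivity
  have h2 : ∑ j ∈ Finset.range (R + 1), (R.choose j : ℝ) * y ^ j =
      ∑ j ∈ Finset.range (max k R + 1), (R.choose j : ℝ) * y ^ j := by
    apply Finset.sum_subset
    · intro j hj
      rw [Finset.mem_range] at hj ⊢
      have := le_max_right k R
      omega
    · intro j _ hj
      rw [Finset.mem_range] at hj
      rw [Nat.choose_eq_zero_of_lt (by omega)]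
      simp
  have h3 : ∑ j ∈ Finset.range (R + 1), (R.choose j : ℝ) * y ^ j = (y + 1) ^ R := by
    rw [add_pow]
    apply Finset.sum_congr rfl
    intro j _
    rw [one_pow]
    ring
  have h4 : (y + 1) ^ R ≤ (Real.exp y) ^ R :=
    pow_le_pow_left₀ (by linarith) (Real.add_one_le_exp y) R
  rw [Real.exp_nat_mul]
  linarith

/-- `cnt R A0 k * x ^ k ≤ (1 + A0 x) ^ R ≤ exp (A0 x R)` for `0 < x ≤ 1`; choose
`x = min 1 (η / (2 (A0 + 1) (C + 1)))` and `κ = η / (2 (1 + log (1 / x)))` -/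
theorem cnt_le (C : ℝ) (hC : 0 < C) (A0 : ℕ) (η : ℝ) (hη : 0 < η) : ∃ κ : ℝ, 0 < κ ∧
    ∀ L : ℝ, 0 ≤ L → ∀ R k : ℕ, (R : ℝ) ≤ C * L → (k : ℝ) ≤ κ * L →
      ((cnt R A0 k : ℕ) : ℝ) ≤ Real.exp (η * L) := by
  obtain ⟨x, hx⟩ : ∃ x : ℝ, x = min 1 (η / (2 * ((A0 : ℝ) + 1) * (C + 1))) := ⟨_, rfl⟩
  have hA : (0 : ℝ) ≤ (A0 : ℝ) := Nat.cast_nonneg _
  have hD : 0 < 2 * ((A0 : ℝ) + 1) * (C + 1) := by positivity
  have hx0 : 0 < x := by
    rw [hx]
    exact lt_min one_pos (div_pos hη hD)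
  have hx1 : x ≤ 1 := by
    rw [hx]
    exact min_le_left _ _
  have hx2 : x * (2 * ((A0 : ℝ) + 1) * (C + 1)) ≤ η := by
    have : x ≤ η / (2 * ((A0 : ℝ) + 1) * (C + 1)) := by
      rw [hx]
      exact min_le_right _ _
    rwa [le_div_iff₀ hD] at this
  have hlog : Real.log x ≤ 0 := Real.log_nonpos hx0.le hx1
  have hE : 0 < 2 * (1 - Real.log x) := by linarith
  refine ⟨η / (2 * (1 - Real.log x)), div_pos hη hE, ?_⟩
  intro L hL R k hR hk
  -- the sum
  have hsum : ((cnt R A0 k : ℕ) : ℝ) * x ^ k ≤ Real.exp ((R : ℝ) * ((A0 : ℝ) * x)) := by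
    refine le_trans ?_ (CntLe_sum R k ((A0 : ℝ) * x) (by positivity))
    unfold cnt
    push_cast
    rw [Finset.sum_mul]
    apply Finset.sum_le_sum
    intro j hj
    rw [Finset.mem_range] at hj
    have h1 : x ^ k ≤ x ^ j := pow_le_pow_of_le_one hx0.le hx1 (by omega)
    calc (R.choose j : ℝ) * (A0 : ℝ) ^ j * x ^ k ≤ (R.choose j : ℝ) * (A0 : ℝ) ^ j * x ^ j :=
          mul_le_mul_of_nonneg_left h1 (by positivity)
      _ = (R.choose j : ℝ) * ((A0 : ℝ) * x) ^ j := by rw [mul_pow]; ring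
  -- the first exponent
  have hexp1 : (R : ℝ) * ((A0 : ℝ) * x) ≤ η * L / 2 := by
    have h1 : (R : ℝ) * ((A0 : ℝ) * x) ≤ (C * L) * ((A0 : ℝ) * x) :=
      mul_le_mul_of_nonneg_right hR (by positivity)
    have h2 : (C * L) * ((A0 : ℝ) * x) ≤ L * (x * (((A0 : ℝ) + 1) * (C + 1))) := by
      have h3 : C * (A0 : ℝ) ≤ ((A0 : ℝ) + 1) * (C + 1) := by nlinarith
      have h4 : (C * L) * ((A0 : ℝ) * x) = (L * x) * (C * (A0 : ℝ)) := by ring
      have h5 : L * (x * (((A0 : ℝ) + 1) * (C + 1))) = (L * x) * (((A0 : ℝ) + 1) * (C + 1)) := by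
        ring
      rw [h4, h5]
      exact mul_le_mul_of_nonneg_left h3 (by positivity)
    have h6 : L * (x * (((A0 : ℝ) + 1) * (C + 1))) ≤ L * (η / 2) := by
      apply mul_le_mul_of_nonneg_left _ hL
      linarith
    linarith
  -- the second exponent
  have hpow : Real.exp (-(η * L / 2)) ≤ x ^ k := by
    rw [← Real.exp_log hx0, ← Real.exp_nat_mul]
    apply Real.exp_le_exp.2
    have h1 : (k : ℝ) * (1 - Real.log x) ≤ η * L / 2 := by
      have h2 : (k : ℝ) * (1 - Real.log x) ≤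
          (η / (2 * (1 - Real.log x)) * L) * (1 - Real.log x) :=
        mul_le_mul_of_nonneg_right hk (by linarith)
      have h3 : (η / (2 * (1 - Real.log x)) * L) * (1 - Real.log x) = η * L / 2 := by
        have : 1 - Real.log x ≠ 0 := by linarith
        field_simp
      linarith
    have h4 : (0 : ℝ) ≤ (k : ℝ) := Nat.cast_nonneg _
    linarith
  have hxk : 0 < x ^ k := pow_pos hx0 k
  have hfin : ((cnt R A0 k : ℕ) : ℝ) * Real.exp (-(η * L / 2)) ≤ Real.exp (η * L / 2) := by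
    calc ((cnt R A0 k : ℕ) : ℝ) * Real.exp (-(η * L / 2)) ≤ ((cnt R A0 k : ℕ) : ℝ) * x ^ k :=
          mul_le_mul_of_nonneg_left hpow (Nat.cast_nonneg _)
      _ ≤ Real.exp ((R : ℝ) * ((A0 : ℝ) * x)) := hsum
      _ ≤ Real.exp (η * L / 2) := Real.exp_le_exp.2 hexp1
  rw [Real.exp_neg, ← div_eq_mul_inv, div_le_iff₀ (Real.exp_pos _), ← Real.exp_add] at hfin
  have : η * L / 2 + η * L / 2 = η * L := by ring
  rwa [this] at hfin

end Pool.Agent.Helper89.DS
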