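import Pool.Agent.Helper89.DS.Defs

set_option autoImplicit false

/-! # Project DS: cuts, pattern counts, pigeonhole -/

namespace Pool.Agent.Helper89.DS

open Finset

private theorem Cut_one (V : Finset ℕ) (k m : ℕ) (hk : 1 ≤ k) (h : k + m ≤ V.card) :
    ∃ q ∈ V, (V.filter (fun x => x < q + 1)).card = k ∧
      m ≤ (V.filter (fun x => q + 1 ≤ x)).card := by
  let i : Fin V.card := ⟨k - 1, by omega⟩
  have hq : V.orderEmbOfFin rfl i ∈ V := Finset.orderEmbOfFin_mem V rfl i
  have h1 : V.filter (fun x => x < V.orderEmbOfFin rfl i + 1) =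
      (Finset.Iic i).map (V.orderEmbOfFin rfl).toEmbedding := by
    ext x
    rw [Finset.mem_filter, Finset.mem_map]
    constructor
    · rintro ⟨hx, hlt⟩
      rw [← Finset.map_orderEmbOfFin_univ V rfl, Finset.mem_map] at hx
      obtain ⟨j, -, rfl⟩ := hx
      refine ⟨j, ?_, rfl⟩
      rw [Finset.mem_Iic]
      have h2 : V.orderEmbOfFin rfl j ≤ V.orderEmbOfFin rfl i := Nat.lt_succ_iff.1 hlt
      exact (V.orderEmbOfFin rfl).le_iff_le.1 h2
    · rintro ⟨j, hj, rfl⟩
      rw [Finset.mem_Iic] at hj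
      exact ⟨Finset.orderEmbOfFin_mem V rfl j,
        Nat.lt_succ_iff.2 ((V.orderEmbOfFin rfl).le_iff_le.2 hj)⟩
  have h2 : (V.filter (fun x => x < V.orderEmbOfFin rfl i + 1)).card = k := by
    rw [h1, Finset.card_map, Fin.card_Iic]
    change k - 1 + 1 = k
    omega
  have h3 := Finset.card_filter_add_card_filter_not (s := V)
    (fun x => x < V.orderEmbOfFin rfl i + 1)
  have h4 : V.filter (fun x => ¬ x < V.orderEmbOfFin rfl i + 1) =
      V.filter (fun x => V.orderEmbOfFin rfl i + 1 ≤ x) := by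
    refine Finset.filter_congr fun x _ => ?_
    rw [not_lt]
  rw [h4, h2] at h3
  exact ⟨_, hq, h2, by omega⟩

/-- the cut: for `a ∈ A` let `c a` be one more than the `k`-th smallest element of
`a.support ∩ U`; it has at most `|U|` values; take the most frequent value. -/
theorem cut (U : Finset ℕ) (k m : ℕ) (hk : 1 ≤ k) (A : Finset (ℕ →₀ ℕ)) (hA : A.Nonempty)
    (h : ∀ a ∈ A, k + m ≤ (a.support ∩ U).card) :
    ∃ c : ℕ, ∃ A' ⊆ A, A.card ≤ A'.card * U.card ∧ ∀ a ∈ A',
      (a.support ∩ U.filter (fun q => q < c)).card = k ∧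
      m ≤ (a.support ∩ U.filter (fun q => c ≤ q)).card := by
  classical
  have h1 : ∀ a : ℕ →₀ ℕ, ∃ q : ℕ, a ∈ A → q ∈ U ∧
      (a.support ∩ U.filter (fun x => x < q + 1)).card = k ∧
      m ≤ (a.support ∩ U.filter (fun x => q + 1 ≤ x)).card := by
    intro a
    by_cases ha : a ∈ A
    · obtain ⟨q, hq, h2, h3⟩ := Cut_one _ k m hk (h a ha)
      refine ⟨q, fun _ => ⟨(Finset.mem_inter.1 hq).2, ?_, ?_⟩⟩
      · rw [Finset.inter_filter]
        exact h2
      · rw [Finset.inter_filter]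
        exact h3
    · exact ⟨0, fun h0 => absurd h0 ha⟩
  choose q hq using h1
  have hU : U.Nonempty := by
    obtain ⟨a, ha⟩ := hA
    exact ⟨q a, (hq a ha).1⟩
  obtain ⟨u, -, hu⟩ := Finset.exists_max_image U (fun u => (A.filter (fun a => q a = u)).card) hU
  have h2 := Finset.card_eq_sum_card_fiberwise (f := q) (s := A) (t := U)
    (fun a ha => (hq a ha).1)
  have h3 : A.card ≤ U.card * (A.filter (fun a => q a = u)).card := by
    rw [h2, ← smul_eq_mul]
    exact Finset.sum_le_card_nsmul _ _ _ hu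
  refine ⟨u + 1, A.filter (fun a => q a = u), Finset.filter_subset _ _, ?_, fun a ha => ?_⟩
  · rw [mul_comm]
    exact h3
  · obtain ⟨ha1, ha2⟩ := Finset.mem_filter.1 ha
    rw [← ha2]
    exact (hq a ha1).2

end Pool.Agent.Helper89.DS
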