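import Mathlib

set_option autoImplicit false

/-!
# Project DS (MP_120218): sets with few divisors; definitions

A number composed of the elements of a base is represented by the vector of its exponents,
`e : ℕ →₀ ℕ`. The part of `e` in `S` is `e.filter (fun q => q ∈ S)`.
-/

namespace Pool.Agent.Helper89.DS

open Finset

/-- the number with exponents `e` -/
noncomputable def num (e : ℕ →₀ ℕ) : ℕ := e.prod (fun q i => q ^ i)

/-- the number of vectors with support of at most `k` elements in an `R`-element set and values in
`[1, A0]` on the support -/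
def cnt (R A0 k : ℕ) : ℕ := ∑ j ∈ Finset.range (k + 1), R.choose j * A0 ^ j

/-- conditions for peeling blocks with `k_1, k_2, ...` elements of the support at density `α` -/
def Good (R A0 : ℕ) : List ℕ → ℝ → Prop
  | [], _ => True
  | k :: ks, α => 1 ≤ k ∧ 2 * (R : ℝ) ≤ α * 2 ^ k ∧
      Good R A0 ks (α / ((R : ℝ) * ((cnt R A0 k : ℕ) : ℝ) ^ 2))

/-- the total loss of peeling -/
noncomputable def loss (R A0 : ℕ) : List ℕ → ℝ
  | [] => 1
  | k :: ks => (R : ℝ) * ((cnt R A0 k : ℕ) : ℝ) ^ 2 * loss R A0 ks

end Pool.Agent.Helper89.DS
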