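import Pool.Agent.Helper89.DS.Kf

set_option autoImplicit false

/-! # Project DS: sets of divisors of one number -/

namespace Pool.Agent.Helper89.DS

open Finset Pool.Agent.Helper89.DD

theorem two_pow_le_divisors (n : ℕ) (hn : n ≠ 0) : 2 ^ n.primeFactors.card ≤ n.divisors.card := by
  rw [Nat.card_divisors hn]
  calc 2 ^ n.primeFactors.card = ∏ _p ∈ n.primeFactors, 2 := by rw [Finset.prod_const]
    _ ≤ ∏ p ∈ n.primeFactors, (n.factorization p + 1) := by
        apply Finset.prod_le_prod'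
        intro p hp
        have h1 := (Nat.prime_of_mem_primeFactors hp).factorization_pos_of_dvd hn
          (Nat.dvd_of_mem_primeFactors hp)
        omega

/-- both conclusions, for sets of divisors of one number -/
theorem both_div (k : ℕ) (ε : ℝ) (hε : 0 < ε) : ∃ c : ℝ, 0 < c ∧
    ∀ A : Finset ℤ, A.Nonempty → ∀ n : ℕ, 0 < n → (∀ a ∈ A, a ∣ (n : ℤ)) →
      (n.divisors.card : ℝ) ≤ (A.card : ℝ) ^ (1 + c) →
      c * (A.card : ℝ) ^ ((k : ℝ) - ε) ≤ ((kZ k A).card : ℝ) ∧
      ∀ X : Finset ℤ, X.Nonempty →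
      c * ((X.card : ℝ) * (A.card : ℝ)) ^ (1 - ε) ≤
        ((Finset.image₂ (fun x y : ℤ => x + y) X A).card : ℝ) := by
  classical
  obtain ⟨c, hc, h⟩ := both_primes k ε 3 hε (by norm_num)
  refine ⟨min c 1, by positivity, ?_⟩
  intro A hA n hn hAn hD
  have hA1 : (1 : ℝ) ≤ (A.card : ℝ) := by exact_mod_cast Finset.card_pos.2 hA
  have hA0 : (0 : ℝ) < (A.card : ℝ) := by linarith
  have hlA : 0 ≤ Real.log (A.card : ℝ) := Real.log_nonneg hA1
  have h0 : (0 : ℤ) ∉ A := by
    intro h1
    have h2 := hAn 0 h1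
    rw [zero_dvd_iff] at h2
    have h3 : n = 0 := by exact_mod_cast h2
    omega
  have hdvd : ∀ a ∈ A, a.natAbs ∣ n := fun a ha => Int.natAbs_dvd_natAbs.2 (hAn a ha)
  have hprimes : (A.biUnion fun a => a.natAbs.primeFactors) ⊆ n.primeFactors := by
    intro p hp
    obtain ⟨a, ha, hpa⟩ := Finset.mem_biUnion.1 hp
    exact Nat.primeFactors_mono (hdvd a ha) hn.ne' hpa
  have hdivs : (A.biUnion fun a => a.natAbs.divisors) ⊆ n.divisors := by
    intro d hd
    obtain ⟨a, ha, hda⟩ := Finset.mem_biUnion.1 hd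
    exact Nat.mem_divisors.2 ⟨(Nat.dvd_of_mem_divisors hda).trans (hdvd a ha), hn.ne'⟩
  have hR : (n.primeFactors.card : ℝ) ≤ 3 * Real.log (A.card : ℝ) := by
    have h1 : ((2 : ℝ)) ^ n.primeFactors.card ≤ (n.divisors.card : ℝ) := by
      exact_mod_cast two_pow_le_divisors n hn.ne'
    have h2 : (n.divisors.card : ℝ) ≤ (A.card : ℝ) ^ (2 : ℝ) := by
      refine hD.trans (Real.rpow_le_rpow_of_exponent_le hA1 ?_)
      have := min_le_right c 1
      linarith
    have h3 := Real.log_le_log (by positivity) (h1.trans h2)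
    rw [Real.log_pow, Real.log_rpow hA0] at h3
    have h4 := Real.log_two_gt_d9
    have h5 : (0 : ℝ) ≤ (n.primeFactors.card : ℝ) := Nat.cast_nonneg _
    nlinarith
  obtain ⟨h1, h2⟩ := h A hA h0 (le_trans (by exact_mod_cast Finset.card_le_card hprimes) hR) (by
    refine le_trans (by exact_mod_cast Finset.card_le_card hdivs) (hD.trans ?_)
    apply Real.rpow_le_rpow_of_exponent_le hA1
    have := min_le_left c 1
    linarith)
  constructor
  · exact (mul_le_mul_of_nonneg_right (min_le_left _ _) (Real.rpow_nonneg hA0.le _)).trans h1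
  · intro X hX
    exact (mul_le_mul_of_nonneg_right (min_le_left _ _) (Real.rpow_nonneg (by positivity) _)).trans
      (h2 X hX)

end Pool.Agent.Helper89.DS
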