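import Pool.Agent.Helper89.DS.Pats
import Pool.Agent.Helper89.DS.CntLe

set_option autoImplicit false

/-! # Project DS: the choice of the block sizes -/

namespace Pool.Agent.Helper89.DS

open Finset

theorem lin_le_exp (C δ : ℝ) (hC : 0 < C) (hδ : 0 < δ) : ∃ L0 : ℝ, 0 < L0 ∧ ∀ L : ℝ, L0 ≤ L →
    C * L ≤ Real.exp (δ * L) := by
  refine ⟨2 * C / δ ^ 2, by positivity, fun L hL => ?_⟩
  have hL0 : 0 < L := lt_of_lt_of_le (by positivity) hL
  have h1 : 2 * C ≤ L * δ ^ 2 := by rwa [div_le_iff₀ (by positivity)] at hL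
  have h2 := Real.quadratic_le_exp_of_nonneg (x := δ * L) (by positivity)
  have h3 : C * L ≤ (δ * L) ^ 2 / 2 := by nlinarith
  have h4 : 0 < δ * L := by positivity
  linarith

/-- Induction on `b`. Step: the induction hypothesis for `η / 2` gives `c'`, `L0'`; take `κ1` from
`cnt_le` for `min c' η / 8`, `κ = min κ1 (η / 4)`, `k = ⌊κ L⌋`, `ks = k :: ks'`,
`c = min (c' / 4) (κ / 4)`, and `L0` so large that `1 ≤ κ L / 2`, `4 C L ≤ exp (κ L / 4)`,
`C L ≤ exp (c' L / 4)`, `C L ≤ exp (η L / 4)` (`lin_le_exp`). -/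
theorem paramsE (C : ℝ) (hC : 0 < C) (A0 : ℕ) : ∀ (b : ℕ) (η : ℝ), 0 < η →
    ∃ c : ℝ, 0 < c ∧ ∃ L0 : ℝ, 0 < L0 ∧ ∀ L : ℝ, L0 ≤ L → ∀ R : ℕ, 1 ≤ R → (R : ℝ) ≤ C * L →
      ∃ ks : List ℕ, ks.length = b ∧ ((ks.sum : ℕ) : ℝ) ≤ η * L ∧
        loss R A0 ks ≤ Real.exp (η * L) ∧
        ∀ α : ℝ, Real.exp (-(c * L)) ≤ α → Good R A0 ks α := by
  intro b
  induction b with
  | zero =>
    intro η hη
    refine ⟨1, one_pos, 1, one_pos, fun L hL R _ _ => ⟨[], rfl, ?_, ?_, fun _ _ => trivial⟩⟩
    · simp only [List.sum_nil, Nat.cast_zero]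
      positivity
    · simp only [loss]
      exact Real.one_le_exp (by positivity)
  | succ b ih =>
    intro η hη
    obtain ⟨c', hc', L0', hL0', hI⟩ := ih (η / 2) (by positivity)
    obtain ⟨κ1, hκ1, hcnt⟩ := cnt_le C hC A0 (min c' η / 8) (by positivity)
    have hκ : 0 < min κ1 (η / 4) := lt_min hκ1 (by positivity)
    obtain ⟨κ, hκdef⟩ : ∃ κ : ℝ, κ = min κ1 (η / 4) := ⟨_, rfl⟩
    rw [← hκdef] at hκ
    have hκ1' : κ ≤ κ1 := hκdef ▸ min_le_left _ _
    have hκ2 : κ ≤ η / 4 := hκdef ▸ min_le_right _ _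
    obtain ⟨La, hLa, ha⟩ := lin_le_exp (4 * C) (κ / 4) (by positivity) (by positivity)
    obtain ⟨Lb, hLb, hb⟩ := lin_le_exp C (c' / 4) hC (by positivity)
    obtain ⟨Lc, hLc, hc⟩ := lin_le_exp C (η / 4) hC (by positivity)
    refine ⟨min (c' / 4) (κ / 4), by positivity, L0' + La + Lb + Lc + 2 / κ, by positivity, ?_⟩
    intro L hL R hR hRC
    have h2κ : 0 < 2 / κ := by positivity
    have hLpos : 0 < L := by linarith
    have e0 : L0' ≤ L := by linarith
    have ea := ha L (by linarith)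
    have eb := hb L (by linarith)
    have ec := hc L (by linarith)
    have eκ : 2 ≤ κ * L := by
      have : 2 / κ ≤ L := by linarith
      rwa [div_le_iff₀ hκ, mul_comm] at this
    obtain ⟨ks', hlen, hsum, hloss, hgood⟩ := hI L e0 R hR hRC
    have hkle : ((⌊κ * L⌋₊ : ℕ) : ℝ) ≤ κ * L := Nat.floor_le (by linarith)
    have hkge : κ * L - 1 < ((⌊κ * L⌋₊ : ℕ) : ℝ) := Nat.sub_one_lt_floor _
    obtain ⟨k, hk⟩ : ∃ k : ℕ, k = ⌊κ * L⌋₊ := ⟨_, rfl⟩
    rw [← hk] at hkle hkge
    have hcn : ((cnt R A0 k : ℕ) : ℝ) ≤ Real.exp (min c' η / 8 * L) :=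
      hcnt L hLpos.le R k hRC (hkle.trans (mul_le_mul_of_nonneg_right hκ1' hLpos.le))
    have hcn1 : (1 : ℝ) ≤ ((cnt R A0 k : ℕ) : ℝ) := by exact_mod_cast one_le_cnt R A0 k
    have hR1 : (1 : ℝ) ≤ (R : ℝ) := by exact_mod_cast hR
    have hcn2 : ((cnt R A0 k : ℕ) : ℝ) ^ 2 ≤ Real.exp (min c' η / 4 * L) := by
      calc ((cnt R A0 k : ℕ) : ℝ) ^ 2 ≤ Real.exp (min c' η / 8 * L) ^ 2 :=
            pow_le_pow_left₀ (by linarith) hcn 2
        _ = Real.exp (min c' η / 4 * L) := by
            rw [← Real.exp_nat_mul]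
            congr 1
            push_cast
            ring
    have hpos : 0 < (R : ℝ) * ((cnt R A0 k : ℕ) : ℝ) ^ 2 := by positivity
    refine ⟨k :: ks', by rw [List.length_cons, hlen], ?_, ?_, ?_⟩
    · rw [List.sum_cons, Nat.cast_add]
      have : κ * L ≤ η / 4 * L := mul_le_mul_of_nonneg_right hκ2 hLpos.le
      have h3 : 0 < η * L := by positivity
      linarith
    · have h1 : (R : ℝ) * ((cnt R A0 k : ℕ) : ℝ) ^ 2 ≤ Real.exp (η / 2 * L) := by
        calc (R : ℝ) * ((cnt R A0 k : ℕ) : ℝ) ^ 2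
            ≤ Real.exp (η / 4 * L) * Real.exp (min c' η / 4 * L) :=
              mul_le_mul (hRC.trans ec) hcn2 (by positivity) (Real.exp_pos _).le
          _ ≤ Real.exp (η / 4 * L) * Real.exp (η / 4 * L) := by
              refine mul_le_mul_of_nonneg_left (Real.exp_le_exp.2 ?_) (Real.exp_pos _).le
              have := min_le_right c' η
              exact mul_le_mul_of_nonneg_right (by linarith) hLpos.le
          _ = Real.exp (η / 2 * L) := by
              rw [← Real.exp_add]
              congr 1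
              ring
      calc loss R A0 (k :: ks') = (R : ℝ) * ((cnt R A0 k : ℕ) : ℝ) ^ 2 * loss R A0 ks' := rfl
        _ ≤ (R : ℝ) * ((cnt R A0 k : ℕ) : ℝ) ^ 2 * Real.exp (η / 2 * L) :=
            mul_le_mul_of_nonneg_left hloss hpos.le
        _ ≤ Real.exp (η / 2 * L) * Real.exp (η / 2 * L) :=
            mul_le_mul_of_nonneg_right h1 (Real.exp_pos _).le
        _ = Real.exp (η * L) := by
            rw [← Real.exp_add]
            congr 1
            ring
    · intro α hα
      have hc1 : min (c' / 4) (κ / 4) * L ≤ κ / 4 * L :=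
        mul_le_mul_of_nonneg_right (min_le_right _ _) hLpos.le
      have hc2 : min (c' / 4) (κ / 4) * L ≤ c' / 4 * L :=
        mul_le_mul_of_nonneg_right (min_le_left _ _) hLpos.le
      have hα1 : Real.exp (-(κ / 4 * L)) ≤ α :=
        (Real.exp_le_exp.2 (by linarith)).trans hα
      have hα2 : Real.exp (-(c' / 4 * L)) ≤ α :=
        (Real.exp_le_exp.2 (by linarith)).trans hα
      have hαpos : 0 < α := (Real.exp_pos _).trans_le hα
      refine ⟨?_, ?_, hgood _ ?_⟩
      · have : (0 : ℝ) < (k : ℝ) := by linarith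
        exact_mod_cast this
      · have hlog : (0.69 : ℝ) < Real.log 2 := by
          have := Real.log_two_gt_d9
          linarith
        have h2k : Real.exp (κ * L * Real.log 2) / 2 ≤ (2 : ℝ) ^ k := by
          have h3 : (2 : ℝ) ^ k = Real.exp (k * Real.log 2) := by
            rw [mul_comm, Real.exp_mul, Real.exp_log (by norm_num), Real.rpow_natCast]
          have h4 : Real.exp (κ * L * Real.log 2) / 2 =
              Real.exp ((κ * L - 1) * Real.log 2) := by
            rw [sub_mul, one_mul, Real.exp_sub, Real.exp_log (by norm_num)]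
          rw [h3, h4]
          exact Real.exp_le_exp.2 (mul_le_mul_of_nonneg_right hkge.le (by linarith))
        have h5 : Real.exp (κ / 4 * L) ≤
            Real.exp (-(κ / 4 * L)) * Real.exp (κ * L * Real.log 2) := by
          rw [← Real.exp_add]
          refine Real.exp_le_exp.2 ?_
          nlinarith
        calc 2 * (R : ℝ) ≤ 4 * C * L / 2 := by linarith
          _ ≤ Real.exp (κ / 4 * L) / 2 := by linarith
          _ ≤ Real.exp (-(κ / 4 * L)) * (Real.exp (κ * L * Real.log 2) / 2) := by linarith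
          _ ≤ α * 2 ^ k := mul_le_mul hα1 h2k (by positivity) hαpos.le
      · rw [le_div_iff₀ hpos]
        calc Real.exp (-(c' * L)) * ((R : ℝ) * ((cnt R A0 k : ℕ) : ℝ) ^ 2)
            ≤ Real.exp (-(c' * L)) * (Real.exp (c' / 4 * L) * Real.exp (c' / 4 * L)) := by
              refine mul_le_mul_of_nonneg_left ?_ (Real.exp_pos _).le
              refine mul_le_mul (hRC.trans eb) (hcn2.trans (Real.exp_le_exp.2 ?_))
                (by positivity) (Real.exp_pos _).le
              have := min_le_left c' η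
              exact mul_le_mul_of_nonneg_right (by linarith) hLpos.le
          _ = Real.exp (-(c' / 2 * L)) := by
              rw [← Real.exp_add, ← Real.exp_add]
              congr 1
              ring
          _ ≤ Real.exp (-(c' / 4 * L)) := by
              refine Real.exp_le_exp.2 ?_
              have : 0 < c' * L := by positivity
              linarith
          _ ≤ α := hα2

end Pool.Agent.Helper89.DS
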