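import Pool.Agent.Helper89.DS.Num
import Pool.Agent.Helper89.DD.SumQ

set_option autoImplicit false

/-! # Project DS: sums, in terms of exponents -/

namespace Pool.Agent.Helper89.DS

open Finset Pool.Agent.Helper89.DD

private theorem sumE_card (T : Finset ℕ) (hT : IsBase T) (Y : Finset (ℕ →₀ ℕ))
    (hY : ∀ y ∈ Y, y.support ⊆ T) : (Y.image num).card = Y.card := by
  refine Finset.card_image_of_injOn ?_
  intro x hx y hy hxy
  exact num_inj T hT x y (hY x hx) (hY y hy) hxy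

private theorem sumE_base {T T' : Finset ℕ} (hT : IsBase T) (h : T' ⊆ T) : IsBase T' :=
  ⟨fun q hq => hT.1 q (h hq), fun q hq q' hq' hne => hT.2 q (h hq) q' (h hq') hne⟩

/-- `sum_boundQ` in terms of exponents -/
theorem sumE (ε lam : ℝ) (hε : 0 < ε) (hε1 : ε ≤ 1) (hlam : 0 < lam) :
    ∃ m : ℕ, ∃ K : ℝ, 0 ≤ K ∧ ∀ (k : ℕ) (T T' : Finset ℕ), IsBase T → T' ⊆ T →
      ∀ Y H : Finset (ℕ →₀ ℕ), Y.Nonempty → (∀ y ∈ Y, y.support ⊆ T') → H.Nonempty →
      (∀ h ∈ H, h.support ⊆ T \ T') → ∀ W : Finset ℕ,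
      (T' ⊆ W ∨ (m ≤ H.card ∧ ∀ q ∈ T', q ∉ W → ¬ q ∣ diffs (H.image num))) →
      ∀ A : Finset (ℕ →₀ ℕ), (∀ h ∈ H, ∀ y ∈ Y, h + y ∈ A) →
        (k : ℝ) * Real.log (Y.card : ℝ) - (k : ℝ) * (((k : ℝ) + 1) * ε * Real.log (Y.card : ℝ) +
          (lam * (T'.card : ℝ) + K * (W.card : ℝ))) ≤
        Real.log ((((Fintype.piFinset (fun _ : Fin k => A.image num)).image
          (fun f : Fin k → ℕ => ∑ i, f i)).card : ℕ) : ℝ) := by
  classical
  obtain ⟨m, K, hK, h⟩ := sum_boundQ ε lam hε hε1 hlam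
  refine ⟨m, K, hK, ?_⟩
  intro k T T' hT hT' Y H hYne hY hHne hH W hor A hA
  have hTb : IsBase T' := sumE_base hT hT'
  have hHT : ∀ x ∈ H, x.support ⊆ T := fun x hx => (hH x hx).trans Finset.sdiff_subset
  have hcY : (Y.image num).card = Y.card := sumE_card T' hTb Y hY
  have hcH : (H.image num).card = H.card := sumE_card T hT H hHT
  have key := h k (fun q => Y.sup (fun y => y q)) T' hTb (Y.image num) (by
      intro z hz
      obtain ⟨y, hy, rfl⟩ := Finset.mem_image.1 hz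
      refine (mem_box _ T' _).2 ⟨fun q => y q, ?_, num_eq T' y (hY y hy)⟩
      intro q hq
      exact Finset.le_sup (f := fun y : ℕ →₀ ℕ => y q) hy)
    (hYne.image num) (H.image num) (hHne.image num) W (by
      intro q hq z hz
      obtain ⟨x, hx, rfl⟩ := Finset.mem_image.1 hz
      refine num_cop T hT q (hT' hq) x (hHT x hx) ?_
      intro hq2
      exact (Finset.mem_sdiff.1 (hH x hx hq2)).2 hq)
    (by
      rcases hor with h1 | ⟨h1, h2⟩
      · exact Or.inl h1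
      · exact Or.inr ⟨by rw [hcH]; exact h1, h2⟩)
    (A.image num) (by
      intro z hz w hw
      obtain ⟨x, hx, rfl⟩ := Finset.mem_image.1 hz
      obtain ⟨y, hy, rfl⟩ := Finset.mem_image.1 hw
      exact Finset.mem_image.2 ⟨x + y, hA x hx y hy, num_add x y⟩)
  rw [hcY] at key
  exact key

end Pool.Agent.Helper89.DS
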