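import Pool.Agent.Helper89.DS.Num
import Pool.Agent.Helper89.DD.SumX

set_option autoImplicit false

/-! # Project DS: the sum with an arbitrary set, in terms of exponents -/

namespace Pool.Agent.Helper89.DS

open Finset Pool.Agent.Helper89.DD

/-- `sum_boundX` in terms of exponents -/
theorem sumXE (ε lam : ℝ) (hε : 0 < ε) (hε1 : ε ≤ 1) (hlam : 0 < lam) :
    ∃ m : ℕ, ∃ K : ℝ, 0 ≤ K ∧ ∀ x0 : ℕ, 0 < x0 → ∀ (T T' : Finset ℕ),
      IsBase T → T' ⊆ T →
      ∀ Y H : Finset (ℕ →₀ ℕ), Y.Nonempty → (∀ y ∈ Y, y.support ⊆ T') → H.Nonempty →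
      (∀ h ∈ H, h.support ⊆ T \ T') → ∀ W : Finset ℕ,
      (T' ⊆ W ∨ (m ≤ H.card ∧ ∀ q ∈ T', q ∉ W → ¬ q ∣ diffs (H.image num))) →
      ∀ A : Finset (ℕ →₀ ℕ), (∀ h ∈ H, ∀ y ∈ Y, h + y ∈ A) → ∀ X : Finset ℤ, X.Nonempty →
        Real.log (X.card : ℝ) + Real.log (Y.card : ℝ) -
          (ε * Real.log (X.card : ℝ) + ε * Real.log (Y.card : ℝ) +
          (lam * (T'.card : ℝ) + K * (W.card : ℝ))) ≤
        Real.log (((Finset.image₂ (fun (x : ℤ) (y : ℕ) => x + (y : ℤ)) X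
          (A.image (fun e => x0 * num e))).card : ℕ) : ℝ) := by
  classical
  obtain ⟨m, K, hK, hmain⟩ := sum_boundX ε lam hε hε1 hlam
  refine ⟨m, K, hK, ?_⟩
  intro x0 hx0 T T' hT hT' Y H hYne hYs hHne hHs W hor A hHY X hX
  have hTT : IsBase T' := IsBase_mono hT hT'
  have hYc : (Y.image (fun e => x0 * num e)).card = Y.card := by
    apply Finset.card_image_of_injOn
    intro y hy y' hy' h
    exact num_inj T' hTT y y' (hYs y hy) (hYs y' hy') (Nat.eq_of_mul_eq_mul_left hx0 h)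
  have hHc : (H.image num).card = H.card := by
    apply Finset.card_image_of_injOn
    intro y hy y' hy' h
    exact num_inj T hT y y' ((hHs y hy).trans Finset.sdiff_subset)
      ((hHs y' hy').trans Finset.sdiff_subset) h
  have h := hmain T' hTT x0 hx0 (Y.image (fun e => x0 * num e)) (by
    intro x hx
    obtain ⟨y, hy, rfl⟩ := Finset.mem_image.1 hx
    exact ⟨y, by rw [num_eq T' y (hYs y hy)]⟩)
    (hYne.image _) (H.image num) (hHne.image _) W (by
    intro q hq x hx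
    obtain ⟨e, he, rfl⟩ := Finset.mem_image.1 hx
    refine num_cop T hT q (hT' hq) e ((hHs e he).trans Finset.sdiff_subset) ?_
    intro hqe
    exact (Finset.mem_sdiff.1 (hHs e he hqe)).2 hq) (by rw [hHc]; exact hor)
    (A.image (fun e => x0 * num e)) (by
    intro x hx y hy
    obtain ⟨e, he, rfl⟩ := Finset.mem_image.1 hx
    obtain ⟨f, hf, rfl⟩ := Finset.mem_image.1 hy
    refine Finset.mem_image.2 ⟨e + f, hHY e he f hf, ?_⟩
    rw [num_add]
    ring) X hX
  rw [hYc] at h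
  exact h

end Pool.Agent.Helper89.DS
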