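import Pool.Agent.Helper89.DS.MainE
import Pool.Agent.Helper89.DS.ParamsE
import Pool.Agent.Helper89.DS.SumXE
import Pool.Agent.Helper89.DS.BigExp

set_option autoImplicit false

/-! # Project DS: sums of an arbitrary set and a dense subset of a lower set -/

namespace Pool.Agent.Helper89.DS

open Finset Pool.Agent.Helper89.DD

/-- the final count of the losses -/
theorem close_real (κ e ε1 lam K w η C LA LD LY t W S : ℝ) (hκ : 1 ≤ κ) (he : 0 < e)
    (hε1 : κ * ((κ + 1) * ε1) = e / 8) (hε10 : 0 < ε1) (hlam : κ * (lam * (2 * C)) = e / 8)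
    (hlam0 : 0 < lam) (hK : 0 ≤ K) (hw0 : 0 < w) (hw : κ * (K * (2 * w)) ≤ e / 8)
    (hη : κ * (4 * η) = e / 16) (hη0 : 0 < η) (hC : 0 < C)
    (hLA : 32 * κ / e ≤ LA) (hDA : LD ≤ 2 * LA) (hYA : LY ≤ LA) (hY : LA ≤ LY + 2 + 2 * (η * LD))
    (ht : t ≤ C * LD) (hW : W ≤ w * LD)
    (hS : κ * LY - κ * ((κ + 1) * ε1 * LY + (lam * t + K * W)) ≤ S) : (κ - e) * LA ≤ S := by
  have hκ0 : 0 < κ := by linarith
  have h1 : κ * 2 ≤ e / 16 * LA := by
    rw [div_le_iff₀ he] at hLA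
    nlinarith
  have h2 : κ * LA ≤ κ * LY + e / 16 * LA + e / 16 * LA := by
    have h3 : κ * LA ≤ κ * (LY + 2 + 2 * (η * LD)) := mul_le_mul_of_nonneg_left hY hκ0.le
    have h4 : κ * (2 * (η * LD)) ≤ κ * (4 * η) * LA := by
      have : η * LD ≤ η * (2 * LA) := mul_le_mul_of_nonneg_left hDA hη0.le
      nlinarith
    rw [hη] at h4
    nlinarith
  have h5 : κ * ((κ + 1) * ε1 * LY) ≤ e / 8 * LA := by
    rw [← hε1]
    have h6 : (κ + 1) * ε1 * LY ≤ (κ + 1) * ε1 * LA := mul_le_mul_of_nonneg_left hYA (by positivity)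
    nlinarith
  have h7 : κ * (lam * t) ≤ e / 8 * LA := by
    rw [← hlam]
    have h8 : lam * t ≤ lam * (C * (2 * LA)) := by
      apply mul_le_mul_of_nonneg_left _ hlam0.le
      exact ht.trans (mul_le_mul_of_nonneg_left hDA hC.le)
    nlinarith
  have hLA0 : 0 ≤ LA := by
    refine le_trans ?_ hLA
    positivity
  have h9 : κ * (K * W) ≤ e / 8 * LA := by
    have h10 : K * W ≤ K * (w * (2 * LA)) := by
      apply mul_le_mul_of_nonneg_left _ hK
      exact hW.trans (mul_le_mul_of_nonneg_left hDA hw0.le)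
    have h11 : κ * (K * W) ≤ κ * (K * (2 * w)) * LA := by
      have := mul_le_mul_of_nonneg_left h10 hκ0.le
      linarith
    exact h11.trans (mul_le_mul_of_nonneg_right hw hLA0)
  have heL : 0 ≤ e * LA := by positivity
  linarith

/-- the version with an arbitrary set `X` -/
theorem close_realX (e ε1 lam K w η C LX LA LD LY t W S : ℝ) (he : 0 < e) (he1 : e ≤ 1)
    (hε1 : (1 : ℝ) * ((1 + 1) * ε1) = e / 8) (hε10 : 0 < ε1)
    (hlam : (1 : ℝ) * (lam * (2 * C)) = e / 8)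
    (hlam0 : 0 < lam) (hK : 0 ≤ K) (hw0 : 0 < w) (hw : (1 : ℝ) * (K * (2 * w)) ≤ e / 8)
    (hη : (1 : ℝ) * (4 * η) = e / 16) (hη0 : 0 < η) (hC : 0 < C)
    (hLA : 32 * (1 : ℝ) / e ≤ LA) (hDA : LD ≤ 2 * LA) (hYA : LY ≤ LA)
    (hY : LA ≤ LY + 2 + 2 * (η * LD)) (hLX : 0 ≤ LX) (hLY : 0 ≤ LY)
    (ht : t ≤ C * LD) (hW : W ≤ w * LD)
    (hS : LX + LY - (ε1 * LX + ε1 * LY + (lam * t + K * W)) ≤ S) : (1 - e) * (LX + LA) ≤ S := by
  have h := close_real 1 e ε1 lam K w η C LA LD LY t W (S - LX + ε1 * LX) le_rfl he hε1 hε10 hlam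
    hlam0 hK hw0 hw hη hη0 hC hLA hDA hYA hY ht hW (by nlinarith [mul_nonneg hε10.le hLY])
  have h1 : ε1 ≤ e := by linarith
  have h2 : ε1 * LX ≤ e * LX := mul_le_mul_of_nonneg_right h1 hLX
  linarith

/-- the main estimate -/
theorem dense_lowerX (e C : ℝ) (he : 0 < e) (he1 : e ≤ 1) (hC : 0 < C) :
    ∃ c : ℝ, 0 < c ∧ c ≤ 1 / 2 ∧ ∃ L0 : ℝ, 0 < L0 ∧ ∀ T : Finset ℕ, IsBase T →
      ∀ D : Finset (ℕ →₀ ℕ), (∀ d ∈ D, d.support ⊆ T) →
      (∀ d ∈ D, ∀ f : ℕ →₀ ℕ, f ≤ d → f ∈ D) → (T.card : ℝ) ≤ C * Real.log (D.card : ℝ) →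
      ∀ A ⊆ D, A.Nonempty → (1 - c) * Real.log (D.card : ℝ) ≤ Real.log (A.card : ℝ) →
      L0 ≤ Real.log (A.card : ℝ) → ∀ x0 : ℕ, 0 < x0 → ∀ X : Finset ℤ, X.Nonempty →
      (1 - e) * (Real.log (X.card : ℝ) + Real.log (A.card : ℝ)) ≤
        Real.log (((Finset.image₂ (fun (x : ℤ) (y : ℕ) => x + (y : ℤ)) X
          (A.image (fun e => x0 * num e))).card : ℕ) : ℝ) := by
  classical
  obtain ⟨κ, hκd⟩ : ∃ κ : ℝ, κ = 1 := ⟨_, rfl⟩
  have hκ : (1 : ℝ) ≤ κ := by rw [hκd]
  have hκ0 : (0 : ℝ) < κ := by linarith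
  obtain ⟨ε1, hε1d⟩ : ∃ ε1 : ℝ, ε1 = e / (8 * κ * (κ + 1)) := ⟨_, rfl⟩
  have hε10 : 0 < ε1 := by rw [hε1d]; positivity
  have hε11 : ε1 ≤ 1 := by
    rw [hε1d, div_le_one (by positivity)]
    nlinarith
  obtain ⟨lam, hlamd⟩ : ∃ lam : ℝ, lam = e / (16 * κ * C) := ⟨_, rfl⟩
  have hlam0 : 0 < lam := by rw [hlamd]; positivity
  obtain ⟨m, K, hK, hsum⟩ := sumXE ε1 lam hε10 hε11 hlam0
  obtain ⟨w, hwd⟩ : ∃ w : ℝ, w = e / (16 * κ * (K + 1)) := ⟨_, rfl⟩
  have hw0 : 0 < w := by rw [hwd]; positivity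
  obtain ⟨η, hηd⟩ : ∃ η : ℝ, η = e / (64 * κ) := ⟨_, rfl⟩
  have hη0 : 0 < η := by rw [hηd]; positivity
  have e1 : κ * ((κ + 1) * ε1) = e / 8 := by rw [hε1d]; field_simp
  have e2 : κ * (lam * (2 * C)) = e / 8 := by rw [hlamd]; field_simp; ring
  have e3 : κ * ((K + 1) * (2 * w)) = e / 8 := by rw [hwd]; field_simp; ring
  have e5 : κ * (K * (2 * w)) ≤ e / 8 := by
    have : 0 ≤ κ * (2 * w) := by positivity
    nlinarith
  have e6 : κ * (4 * η) = e / 16 := by rw [hηd]; field_simp; ring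
  obtain ⟨κB, hκB, hcntB⟩ := cnt_le C hC 1 η hη0
  obtain ⟨s, hsd⟩ : ∃ s : ℝ, s = 1 / κB + 2 / w := ⟨_, rfl⟩
  have hs0 : 0 < s := by rw [hsd]; positivity
  have hs1 : 1 / s ≤ κB := by
    rw [div_le_iff₀ hs0, hsd]
    have h1 : κB * (1 / κB) = 1 := by field_simp
    have h2 : 0 < κB * (2 / w) := by positivity
    rw [mul_add, h1]
    linarith
  have hs2 : 1 / s ≤ w / 2 := by
    rw [div_le_iff₀ hs0, hsd]
    have h1 : w / 2 * (2 / w) = 1 := by field_simp
    have h2 : 0 < w / 2 * (1 / κB) := by positivity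
    rw [mul_add, h1]
    linarith
  obtain ⟨A0, hA0s⟩ : ∃ A0 : ℕ, s ≤ Real.log ((A0 : ℝ) + 2) := by
    refine ⟨⌈Real.exp s⌉₊, ?_⟩
    rw [Real.le_log_iff_exp_le (by positivity)]
    have h1 := Nat.le_ceil (Real.exp s)
    linarith
  obtain ⟨κ', hκ', hcntA⟩ := cnt_le C hC A0 η hη0
  obtain ⟨η2, hη20, hη2a, hη2b, hη2c⟩ : ∃ η2 : ℝ, 0 < η2 ∧ η2 ≤ κ' ∧ η2 ≤ η ∧
      ((A0 : ℝ) + 1) * 4 ^ m * η2 ≤ w / 2 := by
    refine ⟨min κ' (min η (w / 2 / (((A0 : ℝ) + 1) * 4 ^ m))), by positivity, min_le_left _ _,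
      (min_le_right _ _).trans (min_le_left _ _), ?_⟩
    have h1 : min κ' (min η (w / 2 / (((A0 : ℝ) + 1) * 4 ^ m))) ≤
        w / 2 / (((A0 : ℝ) + 1) * 4 ^ m) := (min_le_right _ _).trans (min_le_right _ _)
    have h2 := mul_le_mul_of_nonneg_left h1 (by positivity : (0 : ℝ) ≤ ((A0 : ℝ) + 1) * 4 ^ m)
    refine h2.trans (le_of_eq ?_)
    field_simp
  obtain ⟨c', hc', L0', hL0', hpar⟩ := paramsE C hC A0 m η2 hη20
  refine ⟨min (1 / 2) (c' / 2), by positivity, min_le_left _ _,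
    max L0' (max (32 * κ / e) (4 / c')), lt_of_lt_of_le hL0' (le_max_left _ _), ?_⟩
  intro T hT D hsupp hlow hTC A hAD hAne hdense hL x0 hx0 X hX
  have hLX : 0 ≤ Real.log (X.card : ℝ) := Real.log_natCast_nonneg _
  have hc1 : min (1 / 2) (c' / 2) ≤ 1 / 2 := min_le_left _ _
  have hc2 : min (1 / 2) (c' / 2) ≤ c' / 2 := min_le_right _ _
  have hc0 : 0 < min (1 / 2) (c' / 2) := by positivity
  generalize min (1 / 2) (c' / 2) = c at *
  have hL1 : L0' ≤ Real.log (A.card : ℝ) := (le_max_left _ _).trans hL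
  have hL2 : 32 * κ / e ≤ Real.log (A.card : ℝ) :=
    (le_max_left _ _).trans ((le_max_right _ _).trans hL)
  have hL3 : 4 / c' ≤ Real.log (A.card : ℝ) :=
    (le_max_right _ _).trans ((le_max_right _ _).trans hL)
  have hA1 : (1 : ℝ) ≤ (A.card : ℝ) := by exact_mod_cast Finset.card_pos.2 hAne
  have hAD' : (A.card : ℝ) ≤ (D.card : ℝ) := by exact_mod_cast Finset.card_le_card hAD
  have hA0' : (0 : ℝ) < (A.card : ℝ) := by linarith
  have hD0 : (0 : ℝ) < (D.card : ℝ) := by linarith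
  have hAlog : Real.log (A.card : ℝ) ≤ Real.log (D.card : ℝ) := Real.log_le_log hA0' hAD'
  have hLA0 : 0 < Real.log (A.card : ℝ) := lt_of_lt_of_le hL0' hL1
  have hLD0 : 0 < Real.log (D.card : ℝ) := lt_of_lt_of_le hLA0 hAlog
  have hDA : Real.log (D.card : ℝ) ≤ 2 * Real.log (A.card : ℝ) := by nlinarith
  have hTpos : 1 ≤ T.card := by
    by_contra hcon
    have hT0 : T = ∅ := Finset.card_eq_zero.1 (by omega)
    have h1 : D ⊆ {0} := by
      intro d hd
      rw [Finset.mem_singleton]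
      have h2 := hsupp d hd
      rw [hT0, Finset.subset_empty, Finsupp.support_eq_empty] at h2
      exact h2
    have h2 : (D.card : ℝ) ≤ 1 := by exact_mod_cast Finset.card_le_card h1
    have h3 := Real.log_nonpos hD0.le h2
    linarith
  obtain ⟨ks, hks, hkssum, hloss, hgood⟩ := hpar (Real.log (D.card : ℝ)) (hL1.trans hAlog) T.card
    hTpos hTC
  -- large exponents
  obtain ⟨kB, hkBd⟩ : ∃ kB : ℕ, kB = ⌊Real.log (D.card : ℝ) / s⌋₊ := ⟨_, rfl⟩
  have hkBr : (kB : ℝ) ≤ Real.log (D.card : ℝ) / s := by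
    rw [hkBd]
    exact Nat.floor_le (by positivity)
  have hkB1 : (kB : ℝ) ≤ κB * Real.log (D.card : ℝ) := by
    refine hkBr.trans ?_
    rw [div_eq_mul_one_div, mul_comm]
    exact mul_le_mul_of_nonneg_right hs1 hLD0.le
  have hkB2 : (kB : ℝ) ≤ w / 2 * Real.log (D.card : ℝ) := by
    refine hkBr.trans ?_
    rw [div_eq_mul_one_div, mul_comm]
    exact mul_le_mul_of_nonneg_right hs2 hLD0.le
  have hkB : ∀ d ∈ D, (d.support.filter (fun q => A0 < d q)).card ≤ kB := by
    intro d hd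
    rw [hkBd]
    apply Nat.le_floor
    have h1 := big_exp D hlow A0 d hd
    have h2 : ((A0 : ℝ) + 2) ^ (d.support.filter (fun q => A0 < d q)).card ≤ (D.card : ℝ) := by
      exact_mod_cast h1
    have h3 := Real.log_le_log (by positivity) h2
    rw [Real.log_pow] at h3
    rw [le_div_iff₀ hs0]
    refine le_trans ?_ h3
    exact mul_le_mul_of_nonneg_left hA0s (Nat.cast_nonneg _)
  have hcB := hcntB (Real.log (D.card : ℝ)) hLD0.le T.card kB hTC hkB1
  have hcA := hcntA (Real.log (D.card : ℝ)) hLD0.le T.card ks.sum hTC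
    (hkssum.trans (mul_le_mul_of_nonneg_right hη2a hLD0.le))
  have hloss' : loss T.card A0 ks ≤ Real.exp (η * Real.log (D.card : ℝ)) :=
    hloss.trans (Real.exp_le_exp.2 (mul_le_mul_of_nonneg_right hη2b hLD0.le))
  -- density
  have hα0 : 0 < (A.card : ℝ) / (D.card : ℝ) := by positivity
  have hαexp : Real.exp (-(c' * Real.log (D.card : ℝ))) ≤ (A.card : ℝ) / (D.card : ℝ) / 4 := by
    rw [← Real.le_log_iff_exp_le (by positivity), Real.log_div (by positivity) (by norm_num),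
      Real.log_div hA0'.ne' hD0.ne']
    have h1 : Real.log 4 ≤ 2 := by
      have h2 : Real.log 4 = 2 * Real.log 2 := by
        rw [show (4 : ℝ) = 2 ^ 2 by norm_num, Real.log_pow]
        push_cast
        ring
      have h3 := Real.log_two_lt_d9
      linarith
    have h4 : c * Real.log (D.card : ℝ) ≤ c' / 2 * Real.log (D.card : ℝ) :=
      mul_le_mul_of_nonneg_right hc2 hLD0.le
    have h5 : 2 ≤ c' / 2 * Real.log (D.card : ℝ) := by
      have h6 := hL3.trans hAlog
      rw [div_le_iff₀ hc'] at h6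
      nlinarith
    linarith
  obtain ⟨B, hBT, hBk, hcase⟩ := mainE T A0 kB ks D A hsupp hlow hAD hAne hkB
    ((A.card : ℝ) / (D.card : ℝ)) hα0 (by rw [div_mul_cancel₀ _ hD0.ne']) (hgood _ hαexp)
  have hBw : (B.card : ℝ) ≤ w / 2 * Real.log (D.card : ℝ) := by
    refine le_trans ?_ hkB2
    exact_mod_cast hBk
  -- the size of `Y`
  have hYlog : ∀ (Y : Finset (ℕ →₀ ℕ)), Y.Nonempty → ∀ F : ℝ, 0 < F →
      F ≤ Real.exp (η * Real.log (D.card : ℝ)) →
      (A.card : ℝ) ≤ (Y.card : ℝ) * (4 * ((cnt T.card 1 kB : ℕ) : ℝ) * F) →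
      Real.log (A.card : ℝ) ≤ Real.log (Y.card : ℝ) + 2 + 2 * (η * Real.log (D.card : ℝ)) := by
    intro Y hYne F hF hFe hAY
    have hY0 : (0 : ℝ) < (Y.card : ℝ) := by exact_mod_cast Finset.card_pos.2 hYne
    have h1 : (A.card : ℝ) ≤ (Y.card : ℝ) * (4 * Real.exp (η * Real.log (D.card : ℝ)) *
        Real.exp (η * Real.log (D.card : ℝ))) := by
      refine hAY.trans ?_
      apply mul_le_mul_of_nonneg_left _ hY0.le
      apply mul_le_mul _ hFe hF.le (by positivity)
      exact mul_le_mul_of_nonneg_left hcB (by norm_num)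
    have h2 := Real.log_le_log hA0' h1
    rw [Real.log_mul hY0.ne' (by positivity), Real.log_mul (by positivity) (by positivity),
      Real.log_mul (by norm_num) (by positivity), Real.log_exp] at h2
    have h3 : Real.log 4 ≤ 2 := by
      have h4 : Real.log 4 = 2 * Real.log 2 := by
        rw [show (4 : ℝ) = 2 ^ 2 by norm_num, Real.log_pow]
        push_cast
        ring
      have h5 := Real.log_two_lt_d9
      linarith
    linarith
  have hYA : ∀ (Y : Finset (ℕ →₀ ℕ)), Y.Nonempty → ∀ h : ℕ →₀ ℕ, (∀ y ∈ Y, h + y ∈ A) →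
      Real.log (Y.card : ℝ) ≤ Real.log (A.card : ℝ) := by
    intro Y hYne h hh
    have hY0 : (0 : ℝ) < (Y.card : ℝ) := by exact_mod_cast Finset.card_pos.2 hYne
    apply Real.log_le_log hY0
    have h1 : Y.card ≤ A.card := by
      apply Finset.card_le_card_of_injOn (fun y => h + y)
      · intro y hy
        exact hh y hy
      · intro y _ y' _ hyy
        exact add_left_cancel hyy
    exact_mod_cast h1
  rcases hcase with ⟨u, Y, hu, hYne, hYB, hAY⟩ | ⟨c1, H, Y, hHc, hHs, hYne, hYs, hHY, hAY⟩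
  · -- most elements have few factors outside `B`
    have h1 := hsum x0 hx0 T B hT hBT Y {u} hYne (fun y hy => (hYB y hy).1)
      ⟨u, Finset.mem_singleton_self u⟩ (by
        intro h hh
        rw [Finset.mem_singleton] at hh
        rw [hh]
        exact hu) B (Or.inl (Finset.Subset.refl _)) A (by
        intro h hh y hy
        rw [Finset.mem_singleton] at hh
        rw [hh]
        exact (hYB y hy).2) X hX
    subst hκd
    have hcApos : (0 : ℝ) < ((cnt T.card A0 ks.sum : ℕ) : ℝ) := by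
      have := one_le_cnt T.card A0 ks.sum
      exact_mod_cast this
    refine close_realX e ε1 lam K w η C (Real.log (X.card : ℝ)) (Real.log (A.card : ℝ)) (Real.log (D.card : ℝ))
      (Real.log (Y.card : ℝ)) (B.card : ℝ) (B.card : ℝ) _ he he1 e1 hε10 e2 hlam0 hK hw0 e5 e6 hη0
      hC hL2 hDA (hYA Y hYne u (fun y hy => (hYB y hy).2)) (hYlog Y hYne _ hcApos hcA hAY) hLX
      (Real.log_natCast_nonneg _) ?_ ?_ h1
    · refine le_trans ?_ hTC
      exact_mod_cast Finset.card_le_card hBT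
    · refine hBw.trans ?_
      have : 0 ≤ w * Real.log (D.card : ℝ) := by positivity
      linarith
  · -- many factors outside `B`
    have hHne : H.Nonempty := by
      rw [← Finset.card_pos, hHc]
      positivity
    set U' : Finset ℕ := (T \ B).filter (fun q => c1 ≤ q) with hU'
    have hU'T : U' ⊆ T := (Finset.filter_subset _ _).trans Finset.sdiff_subset
    have hT'T : B ∪ U' ⊆ T := Finset.union_subset hBT hU'T
    set bad : Finset ℕ := U'.filter (fun q => q ∣ diffs (H.image num)) with hbad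
    have hbadc : bad.card ≤ A0 * ks.sum * 4 ^ m := by
      refine base_card_le bad (IsBase_mono hT ((Finset.filter_subset _ _).trans hU'T))
        (diffs (H.image num)) (max c1 2) _ (diffs_pos _) (le_max_right _ _) ?_ ?_ ?_
      · intro q hq
        have hqU := (Finset.mem_filter.1 hq).1
        exact max_le (Finset.mem_filter.1 hqU).2 (hT.1 q (hU'T hqU))
      · intro q hq
        exact (Finset.mem_filter.1 hq).2
      · have h1 : ∀ h ∈ H.image num, h ≤ (max c1 2) ^ (A0 * ks.sum) := by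
          intro h hh
          obtain ⟨g, hg, rfl⟩ := Finset.mem_image.1 hh
          obtain ⟨hg1, hg2, hg3⟩ := hHs g hg
          refine (num_le g (max c1 2) A0 (by omega) ?_ hg3).trans ?_
          · intro q hq
            have := (Finset.mem_filter.1 (hg1 hq)).2
            exact this.le.trans (le_max_left _ _)
          · exact Nat.pow_le_pow_right (by omega) (Nat.mul_le_mul_left _ hg2)
        have hV : 1 ≤ (max c1 2) ^ (A0 * ks.sum) := Nat.one_le_pow _ _ (by omega)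
        refine (diffs_le (H.image num) _ h1 hV).trans ?_
        have h2 : (H.image num).card ^ 2 ≤ 4 ^ m := by
          have h3 : (H.image num).card ≤ 2 ^ m := by
            refine Finset.card_image_le.trans ?_
            rw [hHc, hks]
          calc (H.image num).card ^ 2 ≤ (2 ^ m) ^ 2 := Nat.pow_le_pow_left h3 2
            _ = 4 ^ m := by
              rw [← pow_mul, mul_comm, pow_mul]
              norm_num
        calc ((max c1 2) ^ (A0 * ks.sum)) ^ (H.image num).card ^ 2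
            ≤ ((max c1 2) ^ (A0 * ks.sum)) ^ 4 ^ m := Nat.pow_le_pow_right hV h2
          _ = (max c1 2) ^ (A0 * ks.sum * 4 ^ m) := by rw [← pow_mul]
    have h1 := hsum x0 hx0 T (B ∪ U') hT hT'T Y H hYne hYs hHne (by
        intro h hh q hq
        have h2 := (hHs h hh).1 hq
        rw [Finset.mem_filter, Finset.mem_sdiff] at h2
        rw [Finset.mem_sdiff, Finset.mem_union, hU', Finset.mem_filter]
        refine ⟨h2.1.1, ?_⟩
        rintro (h3 | h3)
        · exact h2.1.2 h3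
        · omega) (B ∪ bad) (Or.inr ⟨by
          rw [hHc, hks]
          exact (Nat.lt_two_pow_self (n := m)).le, by
          intro q hq hqW hd
          rw [Finset.mem_union] at hq hqW
          apply hqW
          rcases hq with hq | hq
          · exact Or.inl hq
          · exact Or.inr (Finset.mem_filter.2 ⟨hq, hd⟩)⟩) A hHY X hX
    subst hκd
    obtain ⟨h0, hh0⟩ := hHne
    have hlosspos : 0 < loss T.card A0 ks := by
      have h2 : (0 : ℝ) < (Y.card : ℝ) * (4 * ((cnt T.card 1 kB : ℕ) : ℝ) * loss T.card A0 ks) :=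
        lt_of_lt_of_le hA0' hAY
      have hY0 : (0 : ℝ) < (Y.card : ℝ) := by exact_mod_cast Finset.card_pos.2 hYne
      have h3 : (0 : ℝ) < 4 * ((cnt T.card 1 kB : ℕ) : ℝ) * loss T.card A0 ks :=
        (mul_pos_iff_of_pos_left hY0).1 h2
      have h4 : (0 : ℝ) < 4 * ((cnt T.card 1 kB : ℕ) : ℝ) := by
        have := one_le_cnt T.card 1 kB
        have h5 : (0 : ℝ) < ((cnt T.card 1 kB : ℕ) : ℝ) := by exact_mod_cast this
        positivity
      exact (mul_pos_iff_of_pos_left h4).1 h3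
    refine close_realX e ε1 lam K w η C (Real.log (X.card : ℝ)) (Real.log (A.card : ℝ)) (Real.log (D.card : ℝ))
      (Real.log (Y.card : ℝ)) ((B ∪ U').card : ℝ) ((B ∪ bad).card : ℝ) _ he he1 e1 hε10 e2 hlam0 hK
      hw0 e5 e6 hη0 hC hL2 hDA (hYA Y hYne h0 (fun y hy => hHY h0 hh0 y hy))
      (hYlog Y hYne _ hlosspos hloss' hAY) hLX (Real.log_natCast_nonneg _) ?_ ?_ h1
    · refine le_trans ?_ hTC
      exact_mod_cast Finset.card_le_card hT'T
    · have h2 : ((B ∪ bad).card : ℝ) ≤ (B.card : ℝ) + (bad.card : ℝ) := by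
        exact_mod_cast Finset.card_union_le B bad
      have h3 : (bad.card : ℝ) ≤ w / 2 * Real.log (D.card : ℝ) := by
        have h4 : (bad.card : ℝ) ≤ (A0 : ℝ) * ((ks.sum : ℕ) : ℝ) * 4 ^ m := by
          exact_mod_cast hbadc
        refine h4.trans ?_
        have h5 : (A0 : ℝ) * ((ks.sum : ℕ) : ℝ) * 4 ^ m ≤
            ((A0 : ℝ) + 1) * (η2 * Real.log (D.card : ℝ)) * 4 ^ m := by
          apply mul_le_mul_of_nonneg_right _ (by positivity)
          apply mul_le_mul (by linarith) hkssum (Nat.cast_nonneg _) (by positivity)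
        have h6 : ((A0 : ℝ) + 1) * (η2 * Real.log (D.card : ℝ)) * 4 ^ m =
            (((A0 : ℝ) + 1) * 4 ^ m * η2) * Real.log (D.card : ℝ) := by ring
        rw [h6] at h5
        exact h5.trans (mul_le_mul_of_nonneg_right hη2c hLD0.le)
      linarith

end Pool.Agent.Helper89.DS
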