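import Pool.Agent.Helper89.DS.FinalX

set_option autoImplicit false

/-! # Project DS: sets of integers -/

namespace Pool.Agent.Helper89.DS

open Finset Pool.Agent.Helper89.DD

theorem num_pos (T : Finset ℕ) (hT : IsBase T) (e : ℕ →₀ ℕ) (he : e.support ⊆ T) : 0 < num e := by
  rw [num_eq T e he]
  exact Finset.prod_pos fun q hq => pow_pos (by have := hT.1 q hq; omega) _

/-- one sign: `A'` is the set of `d ∈ D` with `s x0 num d ∈ A` -/
theorem sign_le (s : ℤ) (hs : s = 1 ∨ s = -1) (x0 : ℕ) (A X : Finset ℤ) (A' : Finset (ℕ →₀ ℕ))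
    (hA' : ∀ d ∈ A', s * ((x0 * num d : ℕ) : ℤ) ∈ A) :
    (Finset.image₂ (fun (x : ℤ) (y : ℕ) => x + (y : ℤ)) (X.image (fun x => s * x))
      (A'.image (fun e => x0 * num e))).card ≤ (Finset.image₂ (fun x y : ℤ => x + y) X A).card := by
  have hss : s * s = 1 := by rcases hs with rfl | rfl <;> norm_num
  apply Finset.card_le_card_of_injOn (fun z => s * z)
  · intro z hz
    rw [Finset.mem_coe] at hz ⊢
    obtain ⟨x', hx', y', hy', rfl⟩ := Finset.mem_image₂.1 hz
    obtain ⟨x, hx, rfl⟩ := Finset.mem_image.1 hx'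
    obtain ⟨d, hd, rfl⟩ := Finset.mem_image.1 hy'
    refine Finset.mem_image₂.2 ⟨x, hx, s * ((x0 * num d : ℕ) : ℤ), hA' d hd, ?_⟩
    linear_combination (-x) * hss
  · intro z _ z' _ h
    have h1 : s * z = s * z' := h
    have h2 : s * (s * z) = s * (s * z') := by rw [h1]
    rw [← mul_assoc, ← mul_assoc, hss, one_mul, one_mul] at h2
    exact h2

/-- sums of an arbitrary set and a set with few divisors -/
theorem intX (ε C : ℝ) (hε : 0 < ε) (hC : 0 < C) : ∃ c : ℝ, 0 < c ∧ c ≤ 1 ∧
    ∀ T : Finset ℕ, IsBase T → ∀ D : Finset (ℕ →₀ ℕ), (∀ d ∈ D, d.support ⊆ T) →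
      (∀ d ∈ D, ∀ f : ℕ →₀ ℕ, f ≤ d → f ∈ D) → ∀ x0 : ℕ, 0 < x0 → ∀ A : Finset ℤ, A.Nonempty →
      (∀ a ∈ A, ∃ d ∈ D, a.natAbs = x0 * num d) → (T.card : ℝ) ≤ C * Real.log (A.card : ℝ) →
      (D.card : ℝ) ≤ (A.card : ℝ) ^ (1 + c) → ∀ X : Finset ℤ, X.Nonempty →
      c * ((X.card : ℝ) * (A.card : ℝ)) ^ (1 - ε) ≤
        ((Finset.image₂ (fun x y : ℤ => x + y) X A).card : ℝ) := by
  classical
  obtain ⟨e, hed⟩ : ∃ e : ℝ, e = min ε 1 := ⟨_, rfl⟩
  have he0 : 0 < e := by rw [hed]; exact lt_min hε one_pos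
  have he1 : e ≤ 1 := by rw [hed]; exact min_le_right _ _
  have heε : e ≤ ε := by rw [hed]; exact min_le_left _ _
  obtain ⟨c1, hc1, hc1', L1, hL1, hmain⟩ := dense_lowerX e (2 * C) he0 he1 (by linarith)
  obtain ⟨L0, hL0d⟩ : ∃ L0 : ℝ, L0 = max (L1 + 2) (2 / c1) := ⟨_, rfl⟩
  have hL0a : L1 + 2 ≤ L0 := by rw [hL0d]; exact le_max_left _ _
  have hL0b : 2 / c1 ≤ L0 := by rw [hL0d]; exact le_max_right _ _
  have hL00 : 0 < L0 := by linarith
  refine ⟨min (1 / 2) (min (c1 / 2) (Real.exp (-L0))), by positivity,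
    (min_le_left _ _).trans (by norm_num), ?_⟩
  intro T hT D hsupp hlow x0 hx0 A hAne hAD hTC hD X hX
  have k1 : min (1 / 2) (min (c1 / 2) (Real.exp (-L0))) ≤ 1 / 2 := min_le_left _ _
  have k2 : min (1 / 2) (min (c1 / 2) (Real.exp (-L0))) ≤ c1 / 2 :=
    (min_le_right _ _).trans (min_le_left _ _)
  have k3 : min (1 / 2) (min (c1 / 2) (Real.exp (-L0))) ≤ Real.exp (-L0) :=
    (min_le_right _ _).trans (min_le_right _ _)
  have k0 : 0 < min (1 / 2) (min (c1 / 2) (Real.exp (-L0))) := by positivity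
  generalize min (1 / 2) (min (c1 / 2) (Real.exp (-L0))) = c at *
  have hA1 : (1 : ℝ) ≤ (A.card : ℝ) := by exact_mod_cast Finset.card_pos.2 hAne
  have hX1 : (1 : ℝ) ≤ (X.card : ℝ) := by exact_mod_cast Finset.card_pos.2 hX
  have hA0 : (0 : ℝ) < (A.card : ℝ) := by linarith
  have hX0 : (0 : ℝ) < (X.card : ℝ) := by linarith
  have hXA1 : (1 : ℝ) ≤ (X.card : ℝ) * (A.card : ℝ) := by nlinarith
  have hXA0 : (0 : ℝ) < (X.card : ℝ) * (A.card : ℝ) := by linarith
  have hlA : 0 ≤ Real.log (A.card : ℝ) := Real.log_nonneg hA1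
  -- `|X| ≤ |X + A|`
  have hXle : (X.card : ℝ) ≤ ((Finset.image₂ (fun x y : ℤ => x + y) X A).card : ℝ) := by
    obtain ⟨a, ha⟩ := hAne
    have h1 : X.card ≤ (Finset.image₂ (fun x y : ℤ => x + y) X A).card := by
      apply Finset.card_le_card_of_injOn (fun x => x + a)
      · intro x hx
        exact Finset.mem_image₂.2 ⟨x, hx, a, ha, rfl⟩
      · intro x _ x' _ h
        exact add_right_cancel h
    exact_mod_cast h1
  have hpow : ((X.card : ℝ) * (A.card : ℝ)) ^ (1 - ε) ≤ ((X.card : ℝ) * (A.card : ℝ)) ^ (1 - e) :=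
    Real.rpow_le_rpow_of_exponent_le hXA1 (by linarith)
  rcases lt_or_ge (Real.log (A.card : ℝ)) L0 with hsmall | hlarge
  · refine le_trans ?_ hXle
    have h1 : ((X.card : ℝ) * (A.card : ℝ)) ^ (1 - e) ≤ (X.card : ℝ) * (A.card : ℝ) := by
      have := Real.rpow_le_rpow_of_exponent_le hXA1 (by linarith : 1 - e ≤ 1)
      rwa [Real.rpow_one] at this
    have h2 : (A.card : ℝ) ≤ Real.exp L0 := by
      rw [← Real.log_le_iff_le_exp hA0]
      exact hsmall.le
    have h3 : ((X.card : ℝ) * (A.card : ℝ)) ^ (1 - ε) ≤ (X.card : ℝ) * Real.exp L0 :=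
      hpow.trans (h1.trans (mul_le_mul_of_nonneg_left h2 hX0.le))
    calc c * ((X.card : ℝ) * (A.card : ℝ)) ^ (1 - ε) ≤
        Real.exp (-L0) * ((X.card : ℝ) * Real.exp L0) :=
          mul_le_mul k3 h3 (Real.rpow_nonneg hXA0.le _) (Real.exp_pos _).le
      _ = (X.card : ℝ) := by
          rw [Real.exp_neg]
          field_simp
  · -- choose the sign
    have h0 : ∀ a ∈ A, a ≠ 0 := by
      intro a ha
      obtain ⟨d, hd, hda⟩ := hAD a ha
      have := num_pos T hT d (hsupp d hd)
      intro h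
      rw [h, Int.natAbs_zero] at hda
      have h2 : 0 < x0 * num d := Nat.mul_pos hx0 this
      omega
    obtain ⟨s, hs, hcard⟩ : ∃ s : ℤ, (s = 1 ∨ s = -1) ∧
        (A.card : ℝ) ≤ 2 * ((A.filter (fun a => 0 < s * a)).card : ℝ) := by
      have h1 : A.card ≤ (A.filter (fun a => 0 < (1 : ℤ) * a)).card +
          (A.filter (fun a => 0 < (-1 : ℤ) * a)).card := by
        rw [← Finset.card_union_add_card_inter]
        refine le_trans (Finset.card_le_card ?_) (Nat.le_add_right _ _)
        intro a ha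
        rw [Finset.mem_union, Finset.mem_filter, Finset.mem_filter]
        rcases lt_trichotomy a 0 with h | h | h
        · right
          exact ⟨ha, by linarith⟩
        · exact absurd h (h0 a ha)
        · left
          exact ⟨ha, by linarith⟩
      have h2 : (A.card : ℝ) ≤ ((A.filter (fun a => 0 < (1 : ℤ) * a)).card : ℝ) +
          ((A.filter (fun a => 0 < (-1 : ℤ) * a)).card : ℝ) := by exact_mod_cast h1
      rcases le_total ((A.filter (fun a => 0 < (1 : ℤ) * a)).card : ℝ)
        ((A.filter (fun a => 0 < (-1 : ℤ) * a)).card : ℝ) with h | h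
      · exact ⟨-1, Or.inr rfl, by linarith⟩
      · exact ⟨1, Or.inl rfl, by linarith⟩
    have hss : s * s = 1 := by rcases hs with rfl | rfl <;> norm_num
    set A' : Finset (ℕ →₀ ℕ) := D.filter (fun d => s * ((x0 * num d : ℕ) : ℤ) ∈ A) with hA'
    have hA'c : (A.filter (fun a => 0 < s * a)).card ≤ A'.card := by
      have hsub : A.filter (fun a => 0 < s * a) ⊆ A'.image (fun d => s * ((x0 * num d : ℕ) : ℤ)) := by
        intro a ha
        rw [Finset.mem_filter] at ha
        obtain ⟨d, hd, hda⟩ := hAD a ha.1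
        have h1 : s * ((x0 * num d : ℕ) : ℤ) = a := by
          rw [← hda, Int.natCast_natAbs]
          have h2 : |a| = s * a := by
            have h3 : |s * a| = s * a := abs_of_pos ha.2
            have h4 : |s| = 1 := by rcases hs with rfl | rfl <;> norm_num
            rw [abs_mul, h4, one_mul] at h3
            exact h3
          rw [h2, ← mul_assoc, hss, one_mul]
        refine Finset.mem_image.2 ⟨d, ?_, h1⟩
        rw [hA', Finset.mem_filter]
        exact ⟨hd, by rw [h1]; exact ha.1⟩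
      exact (Finset.card_le_card hsub).trans Finset.card_image_le
    have hA'r : (A.card : ℝ) ≤ 2 * (A'.card : ℝ) := by
      have : ((A.filter (fun a => 0 < s * a)).card : ℝ) ≤ (A'.card : ℝ) := by exact_mod_cast hA'c
      linarith
    have hA'0 : (0 : ℝ) < (A'.card : ℝ) := by linarith
    have hA'ne : A'.Nonempty := Finset.card_pos.1 (by exact_mod_cast hA'0)
    have hlog2 : Real.log (A.card : ℝ) ≤ Real.log 2 + Real.log (A'.card : ℝ) := by
      rw [← Real.log_mul (by norm_num) hA'0.ne']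
      exact Real.log_le_log hA0 hA'r
    have hl2 : Real.log 2 ≤ 1 := by
      have := Real.log_two_lt_d9
      linarith
    have hA'D : A' ⊆ D := Finset.filter_subset _ _
    have hD0 : (0 : ℝ) < (D.card : ℝ) := by
      have : (A'.card : ℝ) ≤ (D.card : ℝ) := by exact_mod_cast Finset.card_le_card hA'D
      linarith
    have hlD : Real.log (D.card : ℝ) ≤ (1 + c) * Real.log (A.card : ℝ) := by
      have h1 := Real.log_le_log hD0 hD
      rwa [Real.log_rpow hA0] at h1
    have hA'D' : Real.log (A'.card : ℝ) ≤ Real.log (D.card : ℝ) :=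
      Real.log_le_log hA'0 (by exact_mod_cast Finset.card_le_card hA'D)
    have hXc : (X.image (fun x => s * x)).card = X.card := by
      apply Finset.card_image_of_injective
      intro x x' h
      have h1 : s * x = s * x' := h
      have h2 : s * (s * x) = s * (s * x') := by rw [h1]
      rw [← mul_assoc, ← mul_assoc, hss, one_mul, one_mul] at h2
      exact h2
    have hTC' : (T.card : ℝ) ≤ 2 * C * Real.log (D.card : ℝ) := by
      have h1 : Real.log (A.card : ℝ) ≤ 2 * Real.log (D.card : ℝ) := by linarith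
      have h2 := mul_le_mul_of_nonneg_left h1 hC.le
      linarith
    have hdens : (1 - c1) * Real.log (D.card : ℝ) ≤ Real.log (A'.card : ℝ) := by
      have h1 : (1 - c1) * Real.log (D.card : ℝ) ≤ (1 - c1) * ((1 + c) * Real.log (A.card : ℝ)) :=
        mul_le_mul_of_nonneg_left hlD (by linarith)
      have h2 : (1 - c1) * ((1 + c) * Real.log (A.card : ℝ)) ≤
          (1 - c1 / 2) * Real.log (A.card : ℝ) := by
        rw [← mul_assoc]
        apply mul_le_mul_of_nonneg_right _ hlA
        nlinarith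
      have h3 : 1 ≤ c1 / 2 * Real.log (A.card : ℝ) := by
        have h4 := hL0b.trans hlarge
        rw [div_le_iff₀ hc1] at h4
        linarith
      linarith
    have h := hmain T hT D hsupp hlow hTC' A' hA'D hA'ne hdens (by linarith) x0 hx0
      (X.image (fun x => s * x)) (hX.image _)
    rw [hXc] at h
    have hS := sign_le s hs x0 A X A' (fun d hd => (Finset.mem_filter.1 hd).2)
    have hSpos : (0 : ℝ) < ((Finset.image₂ (fun (x : ℤ) (y : ℕ) => x + (y : ℤ))
        (X.image (fun x => s * x)) (A'.image (fun e => x0 * num e))).card : ℝ) := by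
      have : (Finset.image₂ (fun (x : ℤ) (y : ℕ) => x + (y : ℤ))
        (X.image (fun x => s * x)) (A'.image (fun e => x0 * num e))).Nonempty :=
        (hX.image _).image₂ (hA'ne.image _)
      exact_mod_cast Finset.card_pos.2 this
    have h2 := h.trans (Real.log_le_log hSpos (by exact_mod_cast hS :
      _ ≤ ((Finset.image₂ (fun x y : ℤ => x + y) X A).card : ℝ)))
    have hfin : ((X.card : ℝ) * (A'.card : ℝ)) ^ (1 - e) ≤
        ((Finset.image₂ (fun x y : ℤ => x + y) X A).card : ℝ) := by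
      rw [Real.rpow_def_of_pos (by positivity), Real.log_mul hX0.ne' hA'0.ne', mul_comm,
        ← Real.le_log_iff_exp_le (by linarith)]
      exact h2
    refine le_trans ?_ hfin
    have h3 : (1 / 2 : ℝ) * ((X.card : ℝ) * (A.card : ℝ)) ^ (1 - e) ≤
        ((X.card : ℝ) * (A'.card : ℝ)) ^ (1 - e) := by
      have h4 : (1 / 2 : ℝ) ≤ (1 / 2 : ℝ) ^ (1 - e) := by
        have := Real.rpow_le_rpow_of_exponent_ge (by norm_num : (0 : ℝ) < 1 / 2) (by norm_num)
          (by linarith : 1 - e ≤ 1)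
        rwa [Real.rpow_one] at this
      calc (1 / 2 : ℝ) * ((X.card : ℝ) * (A.card : ℝ)) ^ (1 - e) ≤
          (1 / 2 : ℝ) ^ (1 - e) * ((X.card : ℝ) * (A.card : ℝ)) ^ (1 - e) :=
            mul_le_mul_of_nonneg_right h4 (Real.rpow_nonneg hXA0.le _)
        _ = (1 / 2 * ((X.card : ℝ) * (A.card : ℝ))) ^ (1 - e) := by
            rw [Real.mul_rpow (by norm_num) hXA0.le]
        _ ≤ ((X.card : ℝ) * (A'.card : ℝ)) ^ (1 - e) := by
            apply Real.rpow_le_rpow (by positivity) _ (by linarith)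
            nlinarith
    refine le_trans ?_ h3
    exact mul_le_mul k1 hpow (Real.rpow_nonneg hXA0.le _) (by norm_num)

end Pool.Agent.Helper89.DS
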