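import Pool.Agent.Helper89.DS.Int

set_option autoImplicit false

/-! # Project DS: `k`-fold sums, and the version for prime factors -/

namespace Pool.Agent.Helper89.DS

open Finset Pool.Agent.Helper89.DD

/-- `k`-fold sums of a set of integers -/
def kZ (k : ℕ) (A : Finset ℤ) : Finset ℤ :=
  (Fintype.piFinset (fun _ : Fin k => A)).image (fun f : Fin k → ℤ => ∑ i, f i)

theorem kZ_nonempty (k : ℕ) {A : Finset ℤ} (hA : A.Nonempty) : (kZ k A).Nonempty := by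
  unfold kZ
  exact (Fintype.piFinset_nonempty.2 fun _ => hA).image _

theorem kZ_card_le (k : ℕ) (A : Finset ℤ) : (kZ k A).card ≤ A.card ^ k := by
  unfold kZ
  refine Finset.card_image_le.trans ?_
  rw [Fintype.card_piFinset]
  simp

theorem kZ_succ (k : ℕ) (A : Finset ℤ) :
    Finset.image₂ (fun x y : ℤ => x + y) (kZ k A) A ⊆ kZ (k + 1) A := by
  intro z hz
  obtain ⟨x, hx, y, hy, rfl⟩ := Finset.mem_image₂.1 hz
  unfold kZ at hx
  obtain ⟨f, hf, rfl⟩ := Finset.mem_image.1 hx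
  unfold kZ
  refine Finset.mem_image.2 ⟨Fin.cons y f, ?_, ?_⟩
  · rw [Fintype.mem_piFinset] at hf ⊢
    intro i
    refine Fin.cases ?_ (fun j => ?_) i
    · simpa using hy
    · simpa using hf j
  · rw [Fin.sum_univ_succ]
    simp only [Fin.cons_zero, Fin.cons_succ]
    ring

/-- iteration -/
theorem kfoldZ (c e : ℝ) (hc : 0 < c) (hc1 : c ≤ 1) (he : 0 ≤ e) (A : Finset ℤ)
    (hA : A.Nonempty)
    (h : ∀ X : Finset ℤ, X.Nonempty → c * ((X.card : ℝ) * (A.card : ℝ)) ^ (1 - e) ≤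
      ((Finset.image₂ (fun x y : ℤ => x + y) X A).card : ℝ)) (k : ℕ) :
    c ^ k * (A.card : ℝ) ^ ((k : ℝ) - (k : ℝ) ^ 2 * e) ≤ ((kZ k A).card : ℝ) := by
  have hA1 : (1 : ℝ) ≤ (A.card : ℝ) := by exact_mod_cast Finset.card_pos.2 hA
  have hA0 : (0 : ℝ) < (A.card : ℝ) := by linarith
  induction k with
  | zero =>
    have h1 : (1 : ℝ) ≤ ((kZ 0 A).card : ℝ) := by
      exact_mod_cast Finset.card_pos.2 (kZ_nonempty 0 hA)
    simpa using h1
  | succ k ih =>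
    have h1 := h (kZ k A) (kZ_nonempty k hA)
    have h2 : ((Finset.image₂ (fun x y : ℤ => x + y) (kZ k A) A).card : ℝ) ≤
        ((kZ (k + 1) A).card : ℝ) := by exact_mod_cast Finset.card_le_card (kZ_succ k A)
    refine le_trans ?_ (h1.trans h2)
    have hk0 : (0 : ℝ) < ((kZ k A).card : ℝ) := by
      exact_mod_cast Finset.card_pos.2 (kZ_nonempty k hA)
    have hkle : ((kZ k A).card : ℝ) ≤ (A.card : ℝ) ^ (k : ℝ) := by
      rw [Real.rpow_natCast]
      exact_mod_cast kZ_card_le k A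
    have hP0 : (0 : ℝ) < ((kZ k A).card : ℝ) * (A.card : ℝ) := by positivity
    have h3 : (((kZ k A).card : ℝ) * (A.card : ℝ)) ^ (1 - e) =
        ((kZ k A).card : ℝ) * (A.card : ℝ) * (((kZ k A).card : ℝ) * (A.card : ℝ)) ^ (-e) := by
      rw [show (1 - e) = 1 + (-e) by ring, Real.rpow_add hP0, Real.rpow_one]
    have h4 : (A.card : ℝ) ^ (-(((k : ℝ) + 1) * e)) ≤
        (((kZ k A).card : ℝ) * (A.card : ℝ)) ^ (-e) := by
      rw [Real.rpow_neg hA0.le, Real.rpow_neg hP0.le]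
      apply inv_anti₀ (Real.rpow_pos_of_pos hP0 _)
      have h5 : ((kZ k A).card : ℝ) * (A.card : ℝ) ≤ (A.card : ℝ) ^ ((k : ℝ) + 1) := by
        rw [Real.rpow_add hA0, Real.rpow_one]
        exact mul_le_mul_of_nonneg_right hkle hA0.le
      calc (((kZ k A).card : ℝ) * (A.card : ℝ)) ^ e ≤ ((A.card : ℝ) ^ ((k : ℝ) + 1)) ^ e :=
            Real.rpow_le_rpow hP0.le h5 he
        _ = (A.card : ℝ) ^ (((k : ℝ) + 1) * e) := by rw [← Real.rpow_mul hA0.le]
    have h6 : (A.card : ℝ) ^ (((k + 1 : ℕ) : ℝ) - ((k + 1 : ℕ) : ℝ) ^ 2 * e) ≤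
        (A.card : ℝ) ^ ((k : ℝ) - (k : ℝ) ^ 2 * e) * ((A.card : ℝ) *
          (A.card : ℝ) ^ (-(((k : ℝ) + 1) * e))) := by
      have h7 : (A.card : ℝ) ^ ((k : ℝ) - (k : ℝ) ^ 2 * e) * ((A.card : ℝ) *
          (A.card : ℝ) ^ (-(((k : ℝ) + 1) * e))) =
          (A.card : ℝ) ^ ((k : ℝ) - (k : ℝ) ^ 2 * e + (1 + -(((k : ℝ) + 1) * e))) := by
        rw [Real.rpow_add hA0 ((k : ℝ) - (k : ℝ) ^ 2 * e), Real.rpow_add hA0 1, Real.rpow_one]
      rw [h7]
      apply Real.rpow_le_rpow_of_exponent_le hA1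
      push_cast
      have hk : (0 : ℝ) ≤ (k : ℝ) := Nat.cast_nonneg _
      nlinarith [mul_nonneg hk he]
    calc c ^ (k + 1) * (A.card : ℝ) ^ (((k + 1 : ℕ) : ℝ) - ((k + 1 : ℕ) : ℝ) ^ 2 * e) ≤
        c ^ (k + 1) * ((A.card : ℝ) ^ ((k : ℝ) - (k : ℝ) ^ 2 * e) * ((A.card : ℝ) *
          (A.card : ℝ) ^ (-(((k : ℝ) + 1) * e)))) :=
          mul_le_mul_of_nonneg_left h6 (by positivity)
      _ = c * ((c ^ k * (A.card : ℝ) ^ ((k : ℝ) - (k : ℝ) ^ 2 * e)) * ((A.card : ℝ) *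
          (A.card : ℝ) ^ (-(((k : ℝ) + 1) * e)))) := by rw [pow_succ]; ring
      _ ≤ c * (((kZ k A).card : ℝ) * ((A.card : ℝ) *
          (A.card : ℝ) ^ (-(((k : ℝ) + 1) * e)))) := by
          apply mul_le_mul_of_nonneg_left _ hc.le
          exact mul_le_mul_of_nonneg_right ih (by positivity)
      _ ≤ c * (((kZ k A).card : ℝ) * ((A.card : ℝ) *
          (((kZ k A).card : ℝ) * (A.card : ℝ)) ^ (-e))) := by
          apply mul_le_mul_of_nonneg_left _ hc.le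
          apply mul_le_mul_of_nonneg_left _ hk0.le
          exact mul_le_mul_of_nonneg_left h4 hA0.le
      _ = c * (((kZ k A).card : ℝ) * (A.card : ℝ)) ^ (1 - e) := by rw [h3]; ring

/-- both conclusions, for coprime bases -/
theorem both (k : ℕ) (ε C : ℝ) (hε : 0 < ε) (hC : 0 < C) : ∃ c : ℝ, 0 < c ∧
    ∀ T : Finset ℕ, IsBase T → ∀ D : Finset (ℕ →₀ ℕ), (∀ d ∈ D, d.support ⊆ T) →
      (∀ d ∈ D, ∀ f : ℕ →₀ ℕ, f ≤ d → f ∈ D) → ∀ x0 : ℕ, 0 < x0 → ∀ A : Finset ℤ, A.Nonempty →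
      (∀ a ∈ A, ∃ d ∈ D, a.natAbs = x0 * num d) → (T.card : ℝ) ≤ C * Real.log (A.card : ℝ) →
      (D.card : ℝ) ≤ (A.card : ℝ) ^ (1 + c) →
      c * (A.card : ℝ) ^ ((k : ℝ) - ε) ≤ ((kZ k A).card : ℝ) ∧
      ∀ X : Finset ℤ, X.Nonempty →
      c * ((X.card : ℝ) * (A.card : ℝ)) ^ (1 - ε) ≤
        ((Finset.image₂ (fun x y : ℤ => x + y) X A).card : ℝ) := by
  obtain ⟨c1, hc1, hc11, h1⟩ := intX ε C hε hC
  have hk2 : (0 : ℝ) < (k : ℝ) ^ 2 + 1 := by positivity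
  obtain ⟨c2, hc2, hc21, h2⟩ := intX (ε / ((k : ℝ) ^ 2 + 1)) C (by positivity) hC
  refine ⟨min c1 (min c2 (c2 ^ k)), by positivity, ?_⟩
  have k1 : min c1 (min c2 (c2 ^ k)) ≤ c1 := min_le_left _ _
  have k2 : min c1 (min c2 (c2 ^ k)) ≤ c2 := (min_le_right _ _).trans (min_le_left _ _)
  have k3 : min c1 (min c2 (c2 ^ k)) ≤ c2 ^ k := (min_le_right _ _).trans (min_le_right _ _)
  have k0 : 0 < min c1 (min c2 (c2 ^ k)) := by positivity
  generalize min c1 (min c2 (c2 ^ k)) = c at *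
  intro T hT D hsupp hlow x0 hx0 A hA hAD hTC hD
  have hA1 : (1 : ℝ) ≤ (A.card : ℝ) := by exact_mod_cast Finset.card_pos.2 hA
  have hA0 : (0 : ℝ) < (A.card : ℝ) := by linarith
  have hDc : ∀ c' : ℝ, c ≤ c' → (D.card : ℝ) ≤ (A.card : ℝ) ^ (1 + c') := fun c' hc' =>
    hD.trans (Real.rpow_le_rpow_of_exponent_le hA1 (by linarith))
  constructor
  · have h3 := kfoldZ c2 (ε / ((k : ℝ) ^ 2 + 1)) hc2 hc21 (by positivity) A hA
      (h2 T hT D hsupp hlow x0 hx0 A hA hAD hTC (hDc c2 k2)) k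
    refine le_trans ?_ h3
    apply mul_le_mul k3 _ (Real.rpow_nonneg hA0.le _) (by positivity)
    apply Real.rpow_le_rpow_of_exponent_le hA1
    have h4 : (k : ℝ) ^ 2 * (ε / ((k : ℝ) ^ 2 + 1)) ≤ ε := by
      rw [mul_div_assoc', div_le_iff₀ hk2]
      nlinarith
    linarith
  · intro X hX
    refine le_trans ?_ (h1 T hT D hsupp hlow x0 hx0 A hA hAD hTC (hDc c1 k1) X hX)
    exact mul_le_mul_of_nonneg_right k1 (Real.rpow_nonneg (by positivity) _)

theorem isBase_of_primes (T : Finset ℕ) (hT : ∀ p ∈ T, p.Prime) : IsBase T :=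
  ⟨fun q hq => (hT q hq).two_le, fun q hq q' hq' hne =>
    (Nat.coprime_primes (hT q hq) (hT q' hq')).2 hne⟩

theorem num_factorization (n : ℕ) (hn : n ≠ 0) : num n.factorization = n :=
  Nat.prod_factorization_pow_eq_self hn

/-- both conclusions, in terms of prime factors and divisors -/
theorem both_primes (k : ℕ) (ε C : ℝ) (hε : 0 < ε) (hC : 0 < C) : ∃ c : ℝ, 0 < c ∧
    ∀ A : Finset ℤ, A.Nonempty → (0 : ℤ) ∉ A →
      ((A.biUnion fun a => a.natAbs.primeFactors).card : ℝ) ≤ C * Real.log (A.card : ℝ) →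
      ((A.biUnion fun a => a.natAbs.divisors).card : ℝ) ≤ (A.card : ℝ) ^ (1 + c) →
      c * (A.card : ℝ) ^ ((k : ℝ) - ε) ≤ ((kZ k A).card : ℝ) ∧
      ∀ X : Finset ℤ, X.Nonempty →
      c * ((X.card : ℝ) * (A.card : ℝ)) ^ (1 - ε) ≤
        ((Finset.image₂ (fun x y : ℤ => x + y) X A).card : ℝ) := by
  classical
  obtain ⟨c, hc, h⟩ := both k ε C hε hC
  refine ⟨c, hc, ?_⟩
  intro A hA h0 hT hD
  refine h (A.biUnion fun a => a.natAbs.primeFactors) (isBase_of_primes _ ?_)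
    ((A.biUnion fun a => a.natAbs.divisors).image Nat.factorization) ?_ ?_ 1 one_pos A hA ?_ hT ?_
  · intro p hp
    obtain ⟨a, _, hpa⟩ := Finset.mem_biUnion.1 hp
    exact Nat.prime_of_mem_primeFactors hpa
  · intro d hd p hp
    obtain ⟨n, hn, rfl⟩ := Finset.mem_image.1 hd
    obtain ⟨a, ha, hna⟩ := Finset.mem_biUnion.1 hn
    rw [Nat.support_factorization] at hp
    refine Finset.mem_biUnion.2 ⟨a, ha, ?_⟩
    exact Nat.primeFactors_mono (Nat.dvd_of_mem_divisors hna) (Nat.ne_zero_of_mem_divisors hna) hp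
  · intro d hd f hf
    obtain ⟨n, hn, rfl⟩ := Finset.mem_image.1 hd
    obtain ⟨a, ha, hna⟩ := Finset.mem_biUnion.1 hn
    rw [Nat.mem_divisors] at hna
    have hn0 : n ≠ 0 := fun h1 => hna.2 (Nat.eq_zero_of_zero_dvd (h1 ▸ hna.1))
    have hfp : ∀ p ∈ f.support, p.Prime := by
      intro p hp
      have h1 : p ∈ n.factorization.support := Finsupp.support_mono hf hp
      rw [Nat.support_factorization] at h1
      exact Nat.prime_of_mem_primeFactors h1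
    have hff : (num f).factorization = f := Nat.prod_pow_factorization_eq_self hfp
    have hf0 : num f ≠ 0 := by
      unfold num
      rw [Finsupp.prod, Finset.prod_ne_zero_iff]
      intro p hp
      exact pow_ne_zero _ (hfp p hp).ne_zero
    refine Finset.mem_image.2 ⟨num f, ?_, hff⟩
    refine Finset.mem_biUnion.2 ⟨a, ha, ?_⟩
    rw [Nat.mem_divisors]
    refine ⟨dvd_trans ?_ hna.1, hna.2⟩
    rw [← Nat.factorization_le_iff_dvd hf0 hn0, hff]
    exact hf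
  · intro a ha
    have ha0 : a.natAbs ≠ 0 := by
      rw [Int.natAbs_ne_zero]
      rintro rfl
      exact h0 ha
    refine ⟨a.natAbs.factorization, Finset.mem_image.2 ⟨a.natAbs, ?_, rfl⟩, ?_⟩
    · exact Finset.mem_biUnion.2 ⟨a, ha, Nat.mem_divisors_self _ ha0⟩
    · rw [one_mul, num_factorization _ ha0]
  · refine le_trans ?_ hD
    exact_mod_cast Finset.card_image_le

end Pool.Agent.Helper89.DS
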