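import Pool.Agent.Helper89.DS.Defs

set_option autoImplicit false

/-! # Project DS: pigeonhole with density -/

namespace Pool.Agent.Helper89.DS

open Finset

/-- plain pigeonhole -/
theorem pigeon {α ι : Type*} [DecidableEq ι] (A : Finset α) (hA : A.Nonempty) (φ : α → ι)
    (I : Finset ι) (hI : ∀ a ∈ A, φ a ∈ I) :
    ∃ i ∈ I, A.card ≤ (A.filter (fun a => φ a = i)).card * I.card := by
  have hIne : I.Nonempty := by
    obtain ⟨a, ha⟩ := hA
    exact ⟨φ a, hI a ha⟩
  by_contra hcon
  push Not at hcon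
  have hsum : A.card = ∑ i ∈ I, (A.filter (fun a => φ a = i)).card :=
    Finset.card_eq_sum_card_fiberwise hI
  have h1 : ∑ i ∈ I, (A.filter (fun a => φ a = i)).card * I.card < ∑ _i ∈ I, A.card :=
    Finset.sum_lt_sum_of_nonempty hIne hcon
  rw [← Finset.sum_mul, ← hsum, Finset.sum_const, smul_eq_mul, mul_comm] at h1
  exact absurd h1 (lt_irrefl _)

/-- pigeonhole preserving the density: otherwise for every `i ∈ I`
`|A_i| < |A| |D_i| / (2 |D|)` or `|A_i| < |A| / (2 |I|)`, so
`|A_i| < |A| |D_i| / (2 |D|) + |A| / (2 |I|)`; sum over `i`. -/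
theorem pigeonD {α ι : Type*} [DecidableEq ι] (D A : Finset α) (hAD : A ⊆ D) (hA : A.Nonempty)
    (φ : α → ι) (I : Finset ι) (hI : ∀ a ∈ A, φ a ∈ I) :
    ∃ i ∈ I, (A.card : ℝ) ≤ 2 * (I.card : ℝ) * ((A.filter (fun a => φ a = i)).card : ℝ) ∧
      (A.card : ℝ) * ((D.filter (fun a => φ a = i)).card : ℝ) ≤
        2 * (D.card : ℝ) * ((A.filter (fun a => φ a = i)).card : ℝ) := by
  have hIne : I.Nonempty := by
    obtain ⟨a, ha⟩ := hA
    exact ⟨φ a, hI a ha⟩
  have hI0 : (0 : ℝ) < I.card := by exact_mod_cast hIne.card_pos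
  have hA0 : (0 : ℝ) < A.card := by exact_mod_cast hA.card_pos
  have hD0 : (0 : ℝ) < D.card := by exact_mod_cast (hA.mono hAD).card_pos
  by_contra hcon
  push Not at hcon
  have hsum : (A.card : ℝ) = ∑ i ∈ I, ((A.filter (fun a => φ a = i)).card : ℝ) := by
    exact_mod_cast Finset.card_eq_sum_card_fiberwise hI
  have hsumD : ∑ i ∈ I, ((D.filter (fun a => φ a = i)).card : ℝ) ≤ (D.card : ℝ) := by
    have h1 : (D.filter (fun a => φ a ∈ I)).card =
        ∑ i ∈ I, ((D.filter (fun a => φ a ∈ I)).filter (fun a => φ a = i)).card :=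
      Finset.card_eq_sum_card_fiberwise (fun a ha => (Finset.mem_filter.1 ha).2)
    have h2 : ∀ i ∈ I, ((D.filter (fun a => φ a ∈ I)).filter (fun a => φ a = i)) =
        D.filter (fun a => φ a = i) := by
      intro i hi
      ext a
      simp only [Finset.mem_filter]
      constructor
      · rintro ⟨⟨h3, _⟩, h4⟩
        exact ⟨h3, h4⟩
      · rintro ⟨h3, h4⟩
        exact ⟨⟨h3, by rw [h4]; exact hi⟩, h4⟩
    have h3 : ∑ i ∈ I, (D.filter (fun a => φ a = i)).card ≤ D.card := by
      calc ∑ i ∈ I, (D.filter (fun a => φ a = i)).card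
          = ∑ i ∈ I, ((D.filter (fun a => φ a ∈ I)).filter (fun a => φ a = i)).card :=
            Finset.sum_congr rfl fun i hi => by rw [h2 i hi]
        _ = (D.filter (fun a => φ a ∈ I)).card := h1.symm
        _ ≤ D.card := Finset.card_filter_le _ _
    exact_mod_cast h3
  have hpt : ∀ i ∈ I, ((A.filter (fun a => φ a = i)).card : ℝ) <
      (A.card : ℝ) / (2 * D.card) * ((D.filter (fun a => φ a = i)).card : ℝ) +
        (A.card : ℝ) / (2 * I.card) := by
    intro i hi
    have hnn : (0 : ℝ) ≤ (A.card : ℝ) / (2 * D.card) * ((D.filter (fun a => φ a = i)).card : ℝ) := by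
      positivity
    have hpos : (0 : ℝ) < (A.card : ℝ) / (2 * I.card) := by positivity
    by_cases h1 : (A.card : ℝ) ≤ 2 * (I.card : ℝ) * ((A.filter (fun a => φ a = i)).card : ℝ)
    · have h2 := hcon i hi h1
      have h3 : ((A.filter (fun a => φ a = i)).card : ℝ) <
          (A.card : ℝ) * ((D.filter (fun a => φ a = i)).card : ℝ) / (2 * D.card) := by
        rw [lt_div_iff₀ (by positivity)]
        linarith
      have h4 : (A.card : ℝ) * ((D.filter (fun a => φ a = i)).card : ℝ) / (2 * D.card) =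
          (A.card : ℝ) / (2 * D.card) * ((D.filter (fun a => φ a = i)).card : ℝ) := by ring
      linarith
    · push Not at h1
      have h3 : ((A.filter (fun a => φ a = i)).card : ℝ) < (A.card : ℝ) / (2 * I.card) := by
        rw [lt_div_iff₀ (by positivity)]
        linarith
      linarith
  have h5 := Finset.sum_lt_sum_of_nonempty hIne hpt
  rw [← hsum, Finset.sum_add_distrib, ← Finset.mul_sum, Finset.sum_const, nsmul_eq_mul] at h5
  have h6 : (A.card : ℝ) / (2 * D.card) * ∑ i ∈ I, ((D.filter (fun a => φ a = i)).card : ℝ) ≤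
      (A.card : ℝ) / (2 * D.card) * D.card := mul_le_mul_of_nonneg_left hsumD (by positivity)
  have h7 : (A.card : ℝ) / (2 * D.card) * D.card = A.card / 2 := by field_simp
  have h8 : (I.card : ℝ) * ((A.card : ℝ) / (2 * I.card)) = A.card / 2 := by field_simp
  linarith

end Pool.Agent.Helper89.DS
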