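import Pool.Agent.Helper89.DS.PeelE
import Pool.Agent.Helper89.DS.Pigeon

set_option autoImplicit false

/-! # Project DS: many dilates in a dense subset of a lower set -/

namespace Pool.Agent.Helper89.DS

open Finset

/-- the coordinates with a large exponent -/
private def mainE_phi (A0 : ℕ) (d : ℕ →₀ ℕ) : Finset ℕ := d.support.filter (fun q => A0 < d q)

private theorem mainE_mem {A0 : ℕ} {d : ℕ →₀ ℕ} {q : ℕ} : q ∈ mainE_phi A0 d ↔ A0 < d q := by
  unfold mainE_phi
  rw [Finset.mem_filter, Finsupp.mem_support_iff]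
  exact ⟨fun h => h.2, fun h => ⟨(Nat.zero_lt_of_lt h).ne', h⟩⟩

/-- the part outside `B` and the part in `B` -/
private theorem mainE_split (B : Finset ℕ) (a : ℕ →₀ ℕ) :
    a.filter (fun q => q ∉ B) + a.filter (fun q => q ∈ B) = a := by
  rw [add_comm]
  exact Finsupp.filter_add_filter_not a (fun q => q ∈ B)

/-- `pigeonD` with `φ d = d.support.filter (A0 < d ·)` and `I` = the subsets of `T` with at most `kB`
elements (`subsets_card`) gives `B`, `A_B`, `D_B`; `D_B` is lower in the coordinates outside `B`.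
If at least half of the elements of `A_B` have fewer than `ks.sum` elements of the support outside
`B`, `pigeon` for the part outside `B` (`pats_card`): first alternative, with `Y` the set of parts in
`B`. Otherwise `peelE` with `D_B`, `U = T \ B`, density `α / 4`. -/
theorem mainE (T : Finset ℕ) (A0 kB : ℕ) (ks : List ℕ) (D A : Finset (ℕ →₀ ℕ))
    (hsupp : ∀ d ∈ D, d.support ⊆ T) (hlow : ∀ d ∈ D, ∀ e : ℕ →₀ ℕ, e ≤ d → e ∈ D)
    (hAD : A ⊆ D) (hA : A.Nonempty)
    (hkB : ∀ d ∈ D, (d.support.filter (fun q => A0 < d q)).card ≤ kB) (α : ℝ) (hα0 : 0 < α)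
    (hα : α * (D.card : ℝ) ≤ (A.card : ℝ)) (hgood : Good T.card A0 ks (α / 4)) :
    ∃ B ⊆ T, B.card ≤ kB ∧
      ((∃ (u : ℕ →₀ ℕ) (Y : Finset (ℕ →₀ ℕ)), u.support ⊆ T \ B ∧ Y.Nonempty ∧
        (∀ y ∈ Y, y.support ⊆ B ∧ u + y ∈ A) ∧
        (A.card : ℝ) ≤ (Y.card : ℝ) * (4 * ((cnt T.card 1 kB : ℕ) : ℝ) *
          ((cnt T.card A0 ks.sum : ℕ) : ℝ))) ∨
      (∃ (c : ℕ) (H Y : Finset (ℕ →₀ ℕ)), H.card = 2 ^ ks.length ∧
        (∀ h ∈ H, h.support ⊆ (T \ B).filter (fun q => q < c) ∧ h.support.card ≤ ks.sum ∧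
          ∀ q, h q ≤ A0) ∧ Y.Nonempty ∧
        (∀ y ∈ Y, y.support ⊆ B ∪ (T \ B).filter (fun q => c ≤ q)) ∧
        (∀ h ∈ H, ∀ y ∈ Y, h + y ∈ A) ∧
        (A.card : ℝ) ≤ (Y.card : ℝ) * (4 * ((cnt T.card 1 kB : ℕ) : ℝ) *
          loss T.card A0 ks))) := by
  classical
  set φ : (ℕ →₀ ℕ) → Finset ℕ := mainE_phi A0 with hφ
  set I : Finset (Finset ℕ) := T.powerset.filter (fun B => B.card ≤ kB) with hI
  have hφI : ∀ a ∈ A, φ a ∈ I := by
    intro a ha
    rw [hI, Finset.mem_filter, Finset.mem_powerset]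
    exact ⟨(Finset.filter_subset _ _).trans (hsupp a (hAD ha)), hkB a (hAD ha)⟩
  obtain ⟨B, hBI, h1, h2⟩ := pigeonD D A hAD hA φ I hφI
  rw [hI, Finset.mem_filter, Finset.mem_powerset] at hBI
  obtain ⟨hBT, hBk⟩ := hBI
  set AB : Finset (ℕ →₀ ℕ) := A.filter (fun a => φ a = B) with hAB
  set DB : Finset (ℕ →₀ ℕ) := D.filter (fun a => φ a = B) with hDB
  have hIc : (I.card : ℝ) ≤ ((cnt T.card 1 kB : ℕ) : ℝ) := by
    exact_mod_cast subsets_card T kB
  have hA0 : (0 : ℝ) < (A.card : ℝ) := by exact_mod_cast Finset.card_pos.2 hA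
  have hD0 : (0 : ℝ) < (D.card : ℝ) := by exact_mod_cast Finset.card_pos.2 (hA.mono hAD)
  have hABn : (0 : ℝ) ≤ (AB.card : ℝ) := Nat.cast_nonneg _
  have hDBn : (0 : ℝ) ≤ (DB.card : ℝ) := Nat.cast_nonneg _
  have h3 : (A.card : ℝ) ≤ 2 * ((cnt T.card 1 kB : ℕ) : ℝ) * (AB.card : ℝ) :=
    h1.trans (mul_le_mul_of_nonneg_right (by linarith) hABn)
  have hABpos : (0 : ℝ) < (AB.card : ℝ) := by
    rcases hABn.lt_or_eq with h | h
    · exact h
    · rw [← h, mul_zero] at h3
      linarith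
  have h4 : α * (DB.card : ℝ) ≤ 2 * (AB.card : ℝ) := by
    have h5 : α * (D.card : ℝ) * (DB.card : ℝ) ≤ 2 * (D.card : ℝ) * (AB.card : ℝ) :=
      (mul_le_mul_of_nonneg_right hα hDBn).trans h2
    have h6 : (D.card : ℝ) * (α * (DB.card : ℝ)) ≤ (D.card : ℝ) * (2 * (AB.card : ℝ)) := by
      linarith
    exact le_of_mul_le_mul_left h6 hD0
  have hval : ∀ a : ℕ →₀ ℕ, φ a = B → ∀ q, q ∉ B → a q ≤ A0 := by
    intro a ha q hq
    by_contra hlt
    apply hq
    rw [← ha, hφ, mainE_mem]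
    omega
  set U : Finset ℕ := T \ B with hU
  set A1 : Finset (ℕ →₀ ℕ) := AB.filter (fun a => (a.support ∩ U).card < ks.sum) with hA1
  set A2 : Finset (ℕ →₀ ℕ) := AB.filter (fun a => ¬ (a.support ∩ U).card < ks.sum) with hA2
  have h12 : (A1.card : ℝ) + (A2.card : ℝ) = (AB.card : ℝ) := by
    exact_mod_cast Finset.card_filter_add_card_filter_not (s := AB)
      (fun a => (a.support ∩ U).card < ks.sum)
  have hC0 : (0 : ℝ) ≤ ((cnt T.card 1 kB : ℕ) : ℝ) := Nat.cast_nonneg _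
  have hABA : ∀ a ∈ AB, a ∈ A ∧ φ a = B := fun a ha => by
    rw [hAB, Finset.mem_filter] at ha
    exact ha
  refine ⟨B, hBT, hBk, ?_⟩
  by_cases hcase : (A2.card : ℝ) ≤ (A1.card : ℝ)
  · left
    have hA1pos : (0 : ℝ) < (A1.card : ℝ) := by linarith
    have hA1n : A1.Nonempty := Finset.card_pos.1 (by exact_mod_cast hA1pos)
    set ψ : (ℕ →₀ ℕ) → (ℕ →₀ ℕ) := fun a => a.filter (fun q => q ∉ B) with hψ
    obtain ⟨u, huI, hu⟩ := pigeon A1 hA1n ψ (A1.image ψ)
      (fun a ha => Finset.mem_image_of_mem ψ ha)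
    set Au : Finset (ℕ →₀ ℕ) := A1.filter (fun a => ψ a = u) with hAu
    have hpat : ∀ p ∈ A1.image ψ, p.support ⊆ U ∧ p.support.card ≤ ks.sum ∧ ∀ q, p q ≤ A0 := by
      intro p hp
      obtain ⟨a, ha, rfl⟩ := Finset.mem_image.1 hp
      rw [hA1, Finset.mem_filter] at ha
      obtain ⟨haB, hac⟩ := ha
      obtain ⟨haA, hap⟩ := hABA a haB
      have h5 : (ψ a).support ⊆ a.support ∩ U := by
        intro q hq
        rw [hψ] at hq
        dsimp only at hq
        rw [Finsupp.support_filter, Finset.mem_filter] at hq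
        rw [Finset.mem_inter, hU, Finset.mem_sdiff]
        exact ⟨hq.1, hsupp a (hAD haA) hq.1, hq.2⟩
      refine ⟨h5.trans Finset.inter_subset_right, (Finset.card_le_card h5).trans hac.le,
        fun q => ?_⟩
      rw [hψ]
      dsimp only
      by_cases hq : q ∉ B
      · rw [Finsupp.filter_apply_pos (fun q => q ∉ B) a hq]
        exact hval a hap q hq
      · rw [Finsupp.filter_apply_neg (fun q => q ∉ B) a hq]
        exact Nat.zero_le _
    have h6 : (A1.image ψ).card ≤ cnt T.card A0 ks.sum :=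
      (pats_card U A0 ks.sum _ hpat).trans (cnt_mono (Finset.card_le_card Finset.sdiff_subset))
    set Y : Finset (ℕ →₀ ℕ) := Au.image (fun a => a.filter (fun q => q ∈ B)) with hY
    have hYc : Y.card = Au.card := by
      rw [hY]
      refine Finset.card_image_of_injOn ?_
      intro a ha b hb hab
      have ha' := (Finset.mem_filter.1 (Finset.mem_coe.1 ha)).2
      have hb' := (Finset.mem_filter.1 (Finset.mem_coe.1 hb)).2
      have hab' : a.filter (fun q => q ∈ B) = b.filter (fun q => q ∈ B) := hab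
      rw [← mainE_split B a, ← mainE_split B b, hab']
      congr 1
      exact ha'.trans hb'.symm
    have h7 : (A1.card : ℝ) ≤ (Y.card : ℝ) * ((cnt T.card A0 ks.sum : ℕ) : ℝ) := by
      rw [hYc]
      have h8 : A1.card ≤ Au.card * cnt T.card A0 ks.sum :=
        hu.trans (Nat.mul_le_mul_left _ h6)
      exact_mod_cast h8
    refine ⟨u, Y, (hpat u huI).1, ?_, ?_, ?_⟩
    · rw [← Finset.card_pos]
      rcases Nat.eq_zero_or_pos Y.card with h8 | h8
      · rw [h8, Nat.cast_zero, zero_mul] at h7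
        linarith
      · exact h8
    · intro y hy
      rw [hY, Finset.mem_image] at hy
      obtain ⟨a, ha, rfl⟩ := hy
      obtain ⟨ha1, ha2⟩ := Finset.mem_filter.1 ha
      refine ⟨?_, ?_⟩
      · intro q hq
        rw [Finsupp.support_filter, Finset.mem_filter] at hq
        exact hq.2
      · rw [← ha2]
        change a.filter (fun q => q ∉ B) + a.filter (fun q => q ∈ B) ∈ A
        rw [mainE_split]
        exact (hABA a (Finset.mem_filter.1 ha1).1).1
    · have h8 : (AB.card : ℝ) ≤ 2 * ((Y.card : ℝ) * ((cnt T.card A0 ks.sum : ℕ) : ℝ)) := by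
        linarith
      calc (A.card : ℝ) ≤ 2 * ((cnt T.card 1 kB : ℕ) : ℝ) * (AB.card : ℝ) := h3
        _ ≤ 2 * ((cnt T.card 1 kB : ℕ) : ℝ) *
            (2 * ((Y.card : ℝ) * ((cnt T.card A0 ks.sum : ℕ) : ℝ))) :=
          mul_le_mul_of_nonneg_left h8 (by linarith)
        _ = (Y.card : ℝ) * (4 * ((cnt T.card 1 kB : ℕ) : ℝ) *
            ((cnt T.card A0 ks.sum : ℕ) : ℝ)) := by ring
  · right
    have hA2pos : (0 : ℝ) < (A2.card : ℝ) := by
      have : (0 : ℝ) ≤ (A1.card : ℝ) := Nat.cast_nonneg _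
      linarith
    have hA2n : A2.Nonempty := Finset.card_pos.1 (by exact_mod_cast hA2pos)
    have hA2m : ∀ a ∈ A2, a ∈ A ∧ φ a = B ∧ ks.sum ≤ (a.support ∩ U).card := by
      intro a ha
      rw [hA2, Finset.mem_filter] at ha
      obtain ⟨h5, h6⟩ := hABA a ha.1
      exact ⟨h5, h6, not_lt.1 ha.2⟩
    obtain ⟨c, H, Y, hH, hH1, hYn, hY1, hHY, hc⟩ := peelE T.card A0 DB ks U A2 (α / 4) hA2n
      (Finset.card_le_card Finset.sdiff_subset) (by linarith) (fun a ha => by
        obtain ⟨h5, h6, -⟩ := hA2m a ha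
        exact Finset.mem_filter.2 ⟨hAD h5, h6⟩)
      (fun a ha e hea hq => by
        obtain ⟨haD, haB⟩ := Finset.mem_filter.1 ha
        refine Finset.mem_filter.2 ⟨hlow a haD e hea, ?_⟩
        ext q
        rw [hφ, mainE_mem]
        constructor
        · intro h5
          rw [← haB, hφ, mainE_mem]
          exact h5.trans_le (hea q)
        · intro h5
          have h6 : q ∉ U := by
            rw [hU, Finset.mem_sdiff]
            exact fun h => h.2 h5
          rw [hq q h6]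
          rw [← haB, hφ, mainE_mem] at h5
          exact h5)
      (fun a ha q hqU => hval a (hA2m a ha).2.1 q (Finset.mem_sdiff.1 hqU).2)
      (fun a ha => (hA2m a ha).2.2) hgood (by linarith)
    refine ⟨c, H, Y, hH, hH1, hYn, ?_, fun h hh y hy => (hA2m _ (hHY h hh y hy)).1, ?_⟩
    · intro y hy q hq
      obtain ⟨hyD, hy0⟩ := hY1 y hy
      have hqT : q ∈ T := hsupp y (Finset.mem_filter.1 hyD).1 hq
      rw [Finset.mem_union, Finset.mem_filter]
      by_cases hqB : q ∈ B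
      · exact Or.inl hqB
      · right
        have hqU : q ∈ U := Finset.mem_sdiff.2 ⟨hqT, hqB⟩
        refine ⟨hqU, ?_⟩
        by_contra hlt
        exact (Finsupp.mem_support_iff.1 hq) (hy0 q hqU (not_le.1 hlt))
    · have h8 : (AB.card : ℝ) ≤ 2 * ((Y.card : ℝ) * loss T.card A0 ks) := by
        linarith
      calc (A.card : ℝ) ≤ 2 * ((cnt T.card 1 kB : ℕ) : ℝ) * (AB.card : ℝ) := h3
        _ ≤ 2 * ((cnt T.card 1 kB : ℕ) : ℝ) * (2 * ((Y.card : ℝ) * loss T.card A0 ks)) :=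
          mul_le_mul_of_nonneg_left h8 (by linarith)
        _ = (Y.card : ℝ) * (4 * ((cnt T.card 1 kB : ℕ) : ℝ) * loss T.card A0 ks) := by ring

end Pool.Agent.Helper89.DS
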