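import Pool.Agent.Helper80.Slots.FewQuotients

set_option autoImplicit false

/-! # Project DS: the form with the maximum, without a condition on the number of primes -/

namespace Pool.Agent.Helper89.DS

open Finset

theorem quot_card (A : Finset ℤ) :
    (A.biUnion fun a => a.natAbs.divisors.image fun d : ℕ => a / (d : ℤ)).card ≤
      2 * (A.biUnion fun a => a.natAbs.divisors).card := by
  classical
  have hsub : (A.biUnion fun a => a.natAbs.divisors.image fun d : ℕ => a / (d : ℤ)) ⊆
      ((A.biUnion fun a => a.natAbs.divisors).image fun n : ℕ => (n : ℤ)) ∪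
        ((A.biUnion fun a => a.natAbs.divisors).image fun n : ℕ => -(n : ℤ)) := by
    intro z hz
    obtain ⟨a, ha, hza⟩ := Finset.mem_biUnion.1 hz
    obtain ⟨d, hd, rfl⟩ := Finset.mem_image.1 hza
    have hmem : (a / (d : ℤ)).natAbs ∈ A.biUnion fun a => a.natAbs.divisors := by
      refine Finset.mem_biUnion.2 ⟨a, ha, ?_⟩
      rw [Nat.mem_divisors] at hd ⊢
      refine ⟨?_, hd.2⟩
      have h1 : ((d : ℤ)) ∣ a := Int.natCast_dvd.2 hd.1
      rw [Int.natAbs_dvd_natAbs]
      exact ⟨(d : ℤ), (Int.ediv_mul_cancel h1).symm⟩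
    rw [Finset.mem_union]
    rcases le_total 0 (a / (d : ℤ)) with h | h
    · left
      exact Finset.mem_image.2 ⟨_, hmem, Int.natAbs_of_nonneg h⟩
    · right
      refine Finset.mem_image.2 ⟨_, hmem, ?_⟩
      have h2 := Int.ofNat_natAbs_of_nonpos h
      rw [h2, neg_neg]
  refine (Finset.card_le_card hsub).trans ((Finset.card_union_le _ _).trans ?_)
  have h1 := Finset.card_image_le (s := A.biUnion fun a => a.natAbs.divisors)
    (f := fun n : ℕ => (n : ℤ))
  have h2 := Finset.card_image_le (s := A.biUnion fun a => a.natAbs.divisors)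
    (f := fun n : ℕ => -(n : ℤ))
  omega

/-- few divisors, without a condition on the number of primes -/
theorem max_form (k : ℕ) (hk : 1 ≤ k) (ε : ℝ) (hε : 0 < ε) : ∃ c : ℝ, 0 < c ∧
    ∀ A : Finset ℤ, A.Nonempty → (0 : ℤ) ∉ A →
      ((A.biUnion fun a => a.natAbs.divisors).card : ℝ) ≤ (A.card : ℝ) ^ (1 + c) →
      c * (A.card : ℝ) ^ ((k : ℝ) - ε) ≤
        max
          (((Fintype.piFinset (fun _ : Fin k => A)).image
              (fun f : Fin k → ℤ => ∑ i, f i)).card : ℝ)
          (((Fintype.piFinset (fun _ : Fin k => A)).image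
              (fun f : Fin k → ℤ => ∏ i, f i)).card : ℝ) := by
  classical
  obtain ⟨c0, hc0, h⟩ := Pool.Agent.Results.MP_120218_co.FewQuotients.result k hk ε 1 1 hε one_pos
    one_pos
  obtain ⟨L0, hL0d⟩ : ∃ L0 : ℝ, L0 = 2 / c0 := ⟨_, rfl⟩
  have hL0 : 0 < L0 := by rw [hL0d]; positivity
  refine ⟨min (c0 / 2) (Real.exp (-((k : ℝ) * L0))), by positivity, ?_⟩
  have k1 : min (c0 / 2) (Real.exp (-((k : ℝ) * L0))) ≤ c0 / 2 := min_le_left _ _
  have k2 : min (c0 / 2) (Real.exp (-((k : ℝ) * L0))) ≤ Real.exp (-((k : ℝ) * L0)) :=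
    min_le_right _ _
  have k0 : 0 < min (c0 / 2) (Real.exp (-((k : ℝ) * L0))) := by positivity
  generalize min (c0 / 2) (Real.exp (-((k : ℝ) * L0))) = c at *
  intro A hA h0 hD
  have hA1 : (1 : ℝ) ≤ (A.card : ℝ) := by exact_mod_cast Finset.card_pos.2 hA
  have hA0 : (0 : ℝ) < (A.card : ℝ) := by linarith
  have hlA : 0 ≤ Real.log (A.card : ℝ) := Real.log_nonneg hA1
  rcases lt_or_ge (Real.log (A.card : ℝ)) L0 with hs | hl
  · have h1 : (1 : ℝ) ≤ (((Fintype.piFinset (fun _ : Fin k => A)).image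
        (fun f : Fin k → ℤ => ∑ i, f i)).card : ℝ) := by
      have : ((Fintype.piFinset (fun _ : Fin k => A)).image
          (fun f : Fin k → ℤ => ∑ i, f i)).Nonempty :=
        (Fintype.piFinset_nonempty.2 fun _ => hA).image _
      exact_mod_cast Finset.card_pos.2 this
    refine le_trans ?_ (h1.trans (le_max_left _ _))
    rw [Real.rpow_def_of_pos hA0]
    have h2 : Real.log (A.card : ℝ) * ((k : ℝ) - ε) ≤ (k : ℝ) * L0 := by
      have h3 : Real.log (A.card : ℝ) * ((k : ℝ) - ε) ≤ Real.log (A.card : ℝ) * (k : ℝ) :=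
        mul_le_mul_of_nonneg_left (by linarith) hlA
      have h4 : Real.log (A.card : ℝ) * (k : ℝ) ≤ L0 * (k : ℝ) :=
        mul_le_mul_of_nonneg_right hs.le (Nat.cast_nonneg _)
      linarith
    calc c * Real.exp (Real.log (A.card : ℝ) * ((k : ℝ) - ε)) ≤
        Real.exp (-((k : ℝ) * L0)) * Real.exp ((k : ℝ) * L0) :=
          mul_le_mul k2 (Real.exp_le_exp.2 h2) (Real.exp_pos _).le (Real.exp_pos _).le
      _ = 1 := by rw [← Real.exp_add]; simp
  · have hQ : ((A.biUnion fun a => a.natAbs.divisors.image fun d : ℕ => a / (d : ℤ)).card : ℝ) ≤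
        (A.card : ℝ) ^ (1 + c0) := by
      have h1 : ((A.biUnion fun a => a.natAbs.divisors.image fun d : ℕ => a / (d : ℤ)).card : ℝ) ≤
          2 * ((A.biUnion fun a => a.natAbs.divisors).card : ℝ) := by
        exact_mod_cast quot_card A
      have h2 : (2 : ℝ) ≤ (A.card : ℝ) ^ (c0 / 2) := by
        rw [Real.rpow_def_of_pos hA0]
        have h3 : (1 : ℝ) ≤ Real.log (A.card : ℝ) * (c0 / 2) := by
          rw [hL0d, div_le_iff₀ hc0] at hl
          linarith
        have h4 := Real.add_one_le_exp (Real.log (A.card : ℝ) * (c0 / 2))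
        linarith
      calc ((A.biUnion fun a => a.natAbs.divisors.image fun d : ℕ => a / (d : ℤ)).card : ℝ) ≤
          2 * ((A.biUnion fun a => a.natAbs.divisors).card : ℝ) := h1
        _ ≤ (A.card : ℝ) ^ (c0 / 2) * (A.card : ℝ) ^ (1 + c) :=
            mul_le_mul h2 hD (Nat.cast_nonneg _) (by positivity)
        _ = (A.card : ℝ) ^ (c0 / 2 + (1 + c)) := by rw [← Real.rpow_add hA0]
        _ ≤ (A.card : ℝ) ^ (1 + c0) := Real.rpow_le_rpow_of_exponent_le hA1 (by linarith)
    have h3 := h A A (A.biUnion fun a => a.natAbs.divisors.image fun d : ℕ => a / (d : ℤ)) hA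
      (Finset.Subset.refl _) h0 (by
        have := Real.rpow_le_rpow_of_exponent_le hA1 (by linarith : 1 - c0 ≤ 1)
        rwa [Real.rpow_one] at this) ∅ (by
        rw [Finset.card_empty, Nat.cast_zero]
        positivity) (by
        intro b hb d _ hdb _ _
        refine Finset.mem_biUnion.2 ⟨b, hb, Finset.mem_image.2 ⟨d, ?_, rfl⟩⟩
        rw [Nat.mem_divisors]
        refine ⟨Int.natCast_dvd.1 hdb, ?_⟩
        rw [Int.natAbs_ne_zero]
        rintro rfl
        exact h0 hb) hQ
    refine le_trans ?_ h3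
    exact mul_le_mul_of_nonneg_right (by linarith) (Real.rpow_nonneg hA0.le _)

end Pool.Agent.Helper89.DS
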