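import Pool.Agent.Helper89.DS.Defs
import Pool.Agent.Helper89.DD.Defs

set_option autoImplicit false

/-! # Project DS: from exponents to numbers -/

namespace Pool.Agent.Helper89.DS

open Finset Pool.Agent.Helper89.DD

theorem num_add (e e' : ℕ →₀ ℕ) : num (e + e') = num e * num e' := by
  unfold num
  exact Finsupp.prod_add_index' (fun _ => pow_zero _) (fun _ _ _ => pow_add _ _ _)

theorem num_eq (T : Finset ℕ) (e : ℕ →₀ ℕ) (h : e.support ⊆ T) : num e = ∏ q ∈ T, q ^ e q := by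
  unfold num
  exact Finsupp.prod_of_support_subset e h _ (fun _ _ => pow_zero _)

private theorem Num_cop_prod (T : Finset ℕ) (hT : IsBase T) (q : ℕ) (hq : q ∈ T) (e : ℕ → ℕ)
    (a : ℕ) : Nat.Coprime (q ^ a) (∏ r ∈ T.erase q, r ^ e r) := by
  refine Nat.Coprime.prod_right fun r hr => ?_
  rw [Finset.mem_erase] at hr
  exact Nat.Coprime.pow _ _ (hT.2 q hq r hr.2 (fun h => hr.1 h.symm))

private theorem Num_le (T : Finset ℕ) (hT : IsBase T) (e e' : ℕ → ℕ)
    (h : ∏ q ∈ T, q ^ e q = ∏ q ∈ T, q ^ e' q) : ∀ q ∈ T, e q ≤ e' q := by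
  intro q hq
  have h1 : q ^ e q ∣ q ^ e' q * ∏ r ∈ T.erase q, r ^ e' r := by
    rw [Finset.mul_prod_erase T (fun r => r ^ e' r) hq, ← h]
    exact Finset.dvd_prod_of_mem (fun r => r ^ e r) hq
  have h2 := (Num_cop_prod T hT q hq e' (e q)).dvd_of_dvd_mul_right h1
  exact (Nat.pow_dvd_pow_iff_le_right (hT.1 q hq)).mp h2

/-- unique factorization over a base -/
theorem num_inj (T : Finset ℕ) (hT : IsBase T) (e e' : ℕ →₀ ℕ) (he : e.support ⊆ T)
    (he' : e'.support ⊆ T) (h : num e = num e') : e = e' := by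
  rw [num_eq T e he, num_eq T e' he'] at h
  ext q
  by_cases hq : q ∈ T
  · exact le_antisymm (Num_le T hT e e' h q hq) (Num_le T hT e' e h.symm q hq)
  · have h1 : e q = 0 := Finsupp.notMem_support_iff.mp (fun h => hq (he h))
    have h2 : e' q = 0 := Finsupp.notMem_support_iff.mp (fun h => hq (he' h))
    rw [h1, h2]

/-- `num e ≤ y ^ (A0 |supp e|)` if the support is below `y` -/
theorem num_le (e : ℕ →₀ ℕ) (y A0 : ℕ) (hy : 1 ≤ y) (h1 : ∀ q ∈ e.support, q ≤ y)
    (h2 : ∀ q, e q ≤ A0) : num e ≤ y ^ (A0 * e.support.card) := by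
  rw [num_eq e.support e (Finset.Subset.refl _)]
  calc ∏ q ∈ e.support, q ^ e q ≤ ∏ _q ∈ e.support, y ^ A0 := by
        refine Finset.prod_le_prod' fun q hq => ?_
        calc q ^ e q ≤ y ^ e q := Nat.pow_le_pow_left (h1 q hq) _
          _ ≤ y ^ A0 := Nat.pow_le_pow_right hy (h2 q)
    _ = y ^ (A0 * e.support.card) := by rw [Finset.prod_const, ← pow_mul]

theorem num_cop (T : Finset ℕ) (hT : IsBase T) (q : ℕ) (hq : q ∈ T) (e : ℕ →₀ ℕ)
    (he : e.support ⊆ T) (hqe : q ∉ e.support) : Nat.Coprime q (num e) := by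
  rw [num_eq e.support e (Finset.Subset.refl _)]
  refine Nat.Coprime.prod_right fun r hr => ?_
  exact Nat.Coprime.pow_right _ (hT.2 q hq r (he hr) (fun h => hqe (h ▸ hr)))

end Pool.Agent.Helper89.DS
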