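import Pool.Agent.Helper89.DS.Defs

set_option autoImplicit false

/-! # Project DS: counting patterns -/

namespace Pool.Agent.Helper89.DS

open Finset

theorem cnt_mono {R R' A0 k : ℕ} (h : R ≤ R') : cnt R A0 k ≤ cnt R' A0 k := by
  unfold cnt
  exact Finset.sum_le_sum fun j _ => Nat.mul_le_mul_right _ (Nat.choose_le_choose j h)

theorem one_le_cnt (R A0 k : ℕ) : 1 ≤ cnt R A0 k := by
  unfold cnt
  have h : R.choose 0 * A0 ^ 0 ≤ ∑ j ∈ Finset.range (k + 1), R.choose j * A0 ^ j :=
    Finset.single_le_sum (f := fun j => R.choose j * A0 ^ j) (fun j _ => Nat.zero_le _)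
      (Finset.mem_range.2 (Nat.succ_pos k))
  simpa using h

/-- the number of vectors with support exactly `B` and values in `[1, A0]` there -/
theorem Pats_fiber (B : Finset ℕ) (A0 : ℕ) (P : Finset (ℕ →₀ ℕ))
    (hP : ∀ p ∈ P, p.support = B ∧ ∀ q, p q ≤ A0) : P.card ≤ A0 ^ B.card := by
  classical
  have h1 : P.card ≤ (Fintype.piFinset (fun _ : B => Finset.Icc 1 A0)).card := by
    apply Finset.card_le_card_of_injOn (fun (p : ℕ →₀ ℕ) (q : B) => p q)
    · intro p hp
      rw [Finset.mem_coe, Fintype.mem_piFinset]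
      intro q
      rw [Finset.mem_Icc]
      obtain ⟨h2, h3⟩ := hP p hp
      refine ⟨?_, h3 q⟩
      have h4 : (q : ℕ) ∈ p.support := by rw [h2]; exact q.2
      exact Nat.one_le_iff_ne_zero.2 (Finsupp.mem_support_iff.1 h4)
    · intro p hp p' hp' h
      have hp2 := (hP p hp).1
      have hp'2 := (hP p' hp').1
      ext q
      by_cases hq : q ∈ B
      · exact congrFun h ⟨q, hq⟩
      · have h5 : p q = 0 := by
          rw [← hp2] at hq
          exact Finsupp.notMem_support_iff.1 hq
        have h6 : p' q = 0 := by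
          rw [← hp'2] at hq
          exact Finsupp.notMem_support_iff.1 hq
        rw [h5, h6]
  refine h1.trans (le_of_eq ?_)
  rw [Fintype.card_piFinset]
  simp

theorem Pats_sum (V : Finset ℕ) (A0 k : ℕ) :
    ∑ B ∈ V.powerset.filter (fun B => B.card ≤ k), A0 ^ B.card = cnt V.card A0 k := by
  classical
  unfold cnt
  have h1 : V.powerset.filter (fun B => B.card ≤ k) =
      (Finset.range (k + 1)).biUnion (fun j => V.powersetCard j) := by
    ext B
    rw [Finset.mem_filter, Finset.mem_powerset, Finset.mem_biUnion]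
    constructor
    · rintro ⟨h2, h3⟩
      exact ⟨B.card, Finset.mem_range.2 (Nat.lt_succ_of_le h3), Finset.mem_powersetCard.2 ⟨h2, rfl⟩⟩
    · rintro ⟨j, hj, hB⟩
      rw [Finset.mem_powersetCard] at hB
      refine ⟨hB.1, ?_⟩
      rw [hB.2]
      exact Nat.le_of_lt_succ (Finset.mem_range.1 hj)
  rw [h1, Finset.sum_biUnion]
  · refine Finset.sum_congr rfl fun j _ => ?_
    rw [Finset.sum_congr rfl (g := fun _ => A0 ^ j) fun B hB => by
      rw [(Finset.mem_powersetCard.1 hB).2]]
    rw [Finset.sum_const, Finset.card_powersetCard, smul_eq_mul]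
  · intro i _ j _ hij
    exact Finset.pairwise_disjoint_powersetCard V hij

/-- number of patterns -/
theorem pats_card (V : Finset ℕ) (A0 k : ℕ) (P : Finset (ℕ →₀ ℕ))
    (hP : ∀ p ∈ P, p.support ⊆ V ∧ p.support.card ≤ k ∧ ∀ q, p q ≤ A0) :
    P.card ≤ cnt V.card A0 k := by
  classical
  rw [← Pats_sum]
  have h1 : P.card = ∑ B ∈ V.powerset.filter (fun B => B.card ≤ k),
      (P.filter (fun p => p.support = B)).card := by
    apply Finset.card_eq_sum_card_fiberwise (f := fun p : ℕ →₀ ℕ => p.support)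
    intro p hp
    rw [Finset.mem_coe, Finset.mem_filter, Finset.mem_powerset]
    exact ⟨(hP p hp).1, (hP p hp).2.1⟩
  rw [h1]
  apply Finset.sum_le_sum
  intro B _
  apply Pats_fiber
  intro p hp
  rw [Finset.mem_filter] at hp
  exact ⟨hp.2, (hP p hp.1).2.2⟩

/-- number of subsets -/
theorem subsets_card (V : Finset ℕ) (k : ℕ) :
    (V.powerset.filter (fun B => B.card ≤ k)).card ≤ cnt V.card 1 k := by
  rw [← Pats_sum, Finset.card_eq_sum_ones]
  apply Finset.sum_le_sum
  intro B _
  rw [one_pow]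

end Pool.Agent.Helper89.DS
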