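import Pool.Agent.Helper89.DS.Step
import Pool.Agent.Helper89.DS.Cut
import Pool.Agent.Helper89.DS.Pats

set_option autoImplicit false

/-! # Project DS: peeling all blocks -/

namespace Pool.Agent.Helper89.DS

open Finset

private theorem peelE_zero {s : ℕ →₀ ℕ} {S : Finset ℕ} (hs : s.support ⊆ S) {q : ℕ} (hq : q ∉ S) :
    s q = 0 := by
  by_contra h
  exact hq (hs (Finsupp.mem_support_iff.2 h))

/-- Induction on `ks`. `[]`: `c = 0`, `H = {0}`, `Y = A`. `k :: ks`: `cut` with `m = ks.sum` gives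
`c1` and `A1 ⊆ A`, `|A| ≤ |A1| |U| ≤ |A1| R`; `step` with `S = U.filter (· < c1)` and `P` = the
image of `A1` under the part in `S` (`|P| ≤ cnt R A0 k` by `pats_card`, `cnt_mono`) and density
`α / R` gives `s ≠ t` and `A'`; `A' ⊆ D` because `z ≤ s + z ∈ A1` agree outside `S`; induction
hypothesis with `U' = U.filter (c1 ≤ ·)` and density `α / (R cnt ^ 2)` gives `c2, H', Y`. Take
`c = max c1 c2`, `H = (s + H') ∪ (t + H')`. -/
theorem peelE (R A0 : ℕ) (D : Finset (ℕ →₀ ℕ)) : ∀ (ks : List ℕ) (U : Finset ℕ)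
    (A : Finset (ℕ →₀ ℕ)) (α : ℝ), A.Nonempty → U.card ≤ R → 0 < α → A ⊆ D →
    (∀ a ∈ D, ∀ e : ℕ →₀ ℕ, e ≤ a → (∀ q, q ∉ U → e q = a q) → e ∈ D) →
    (∀ a ∈ A, ∀ q ∈ U, a q ≤ A0) → (∀ a ∈ A, ks.sum ≤ (a.support ∩ U).card) →
    Good R A0 ks α → α * (D.card : ℝ) ≤ (A.card : ℝ) →
    ∃ (c : ℕ) (H Y : Finset (ℕ →₀ ℕ)), H.card = 2 ^ ks.length ∧
      (∀ h ∈ H, h.support ⊆ U.filter (fun q => q < c) ∧ h.support.card ≤ ks.sum ∧
        ∀ q, h q ≤ A0) ∧ Y.Nonempty ∧ (∀ y ∈ Y, y ∈ D ∧ ∀ q ∈ U, q < c → y q = 0) ∧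
      (∀ h ∈ H, ∀ y ∈ Y, h + y ∈ A) ∧ (A.card : ℝ) ≤ (Y.card : ℝ) * loss R A0 ks := by
  intro ks
  induction ks with
  | nil =>
    intro U A α hA _ _ hAD _ _ _ _ _
    refine ⟨0, {0}, A, by simp, ?_, hA, fun y hy => ⟨hAD hy, fun q _ hq => absurd hq (by omega)⟩,
      ?_, ?_⟩
    · intro h hh
      rw [Finset.mem_singleton] at hh
      subst hh
      simp
    · intro h hh y hy
      rw [Finset.mem_singleton] at hh
      subst hh
      rwa [zero_add]
    · simp [loss]
  | cons k ks ih =>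
    intro U A α hA hUR hα0 hAD hlow hval hks hgood hα
    obtain ⟨hk1, hk2, hgood'⟩ := hgood
    rw [List.sum_cons] at hks
    obtain ⟨c1, A1, hA1A, hAA1, hA1⟩ := cut U k ks.sum hk1 A hA hks
    have hApos : 0 < A.card := Finset.card_pos.2 hA
    have hA1pos : 0 < A1.card := by
      rcases Nat.eq_zero_or_pos A1.card with h | h
      · rw [h, zero_mul] at hAA1
        omega
      · exact h
    have hUpos : 0 < U.card := by
      rcases Nat.eq_zero_or_pos U.card with h | h
      · rw [h, mul_zero] at hAA1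
        omega
      · exact h
    have hRpos : (0 : ℝ) < (R : ℝ) := by
      have : 0 < R := lt_of_lt_of_le hUpos hUR
      exact_mod_cast this
    have hAR : (A.card : ℝ) ≤ (A1.card : ℝ) * (R : ℝ) := by
      have : A.card ≤ A1.card * R := hAA1.trans (Nat.mul_le_mul_left _ hUR)
      exact_mod_cast this
    set S : Finset ℕ := U.filter (fun q => q < c1) with hS
    set U' : Finset ℕ := U.filter (fun q => c1 ≤ q) with hU'
    set P : Finset (ℕ →₀ ℕ) := A1.image (fun a => a.filter (fun q => q ∈ S)) with hP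
    have hSU : ∀ q, q ∈ S → q ∈ U ∧ q < c1 := fun q hq => Finset.mem_filter.1 hq
    have hUU : ∀ q, q ∈ U' → q ∈ U ∧ c1 ≤ q := fun q hq => Finset.mem_filter.1 hq
    have hpat : ∀ p ∈ P, p.support ⊆ S ∧ p.support.card ≤ k ∧ ∀ q, p q ≤ A0 := by
      intro p hp
      obtain ⟨a, ha, rfl⟩ := Finset.mem_image.1 hp
      have h1 : (a.filter (fun q => q ∈ S)).support ⊆ a.support ∩ S := by
        intro q hq
        rw [Finsupp.support_filter, Finset.mem_filter] at hq
        exact Finset.mem_inter.2 hq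
      refine ⟨h1.trans Finset.inter_subset_right, ?_, fun q => ?_⟩
      · exact (Finset.card_le_card h1).trans (hA1 a ha).1.le
      · by_cases hq : q ∈ S
        · rw [Finsupp.filter_apply_pos (fun q => q ∈ S) a hq]
          exact hval a (hA1A ha) q (hSU q hq).1
        · rw [Finsupp.filter_apply_neg (fun q => q ∈ S) a hq]
          exact Nat.zero_le _
    have hPc : P.card ≤ cnt R A0 k :=
      (pats_card S A0 k P hpat).trans
        (cnt_mono ((Finset.card_le_card (Finset.filter_subset _ _)).trans hUR))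
    have hα1 : α / (R : ℝ) * (D.card : ℝ) ≤ (A1.card : ℝ) := by
      rw [div_mul_eq_mul_div, div_le_iff₀ hRpos]
      exact hα.trans hAR
    obtain ⟨s, hsP, t, htP, hst, hsS, htS, A', hA', hA1A'⟩ := step S k D A1 P
      (Finset.card_pos.1 hA1pos)
      (fun a ha e hea hq => hlow a (hAD (hA1A ha)) e hea
        fun q hqU => hq q fun hqS => hqU (hSU q hqS).1)
      (fun a ha => (hA1 a ha).1.ge) (fun a ha => Finset.mem_image_of_mem _ ha) (α / (R : ℝ))
      (by
        rw [div_mul_eq_mul_div, le_div_iff₀ hRpos]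
        exact hk2) hα1
    have hcnt1 : (1 : ℝ) ≤ ((cnt R A0 k : ℕ) : ℝ) := by exact_mod_cast one_le_cnt R A0 k
    have hcnt2 : (0 : ℝ) < ((cnt R A0 k : ℕ) : ℝ) ^ 2 := by positivity
    have hPc2 : (P.card : ℝ) ^ 2 ≤ ((cnt R A0 k : ℕ) : ℝ) ^ 2 := by
      have : (P.card : ℝ) ≤ ((cnt R A0 k : ℕ) : ℝ) := by exact_mod_cast hPc
      exact pow_le_pow_left₀ (Nat.cast_nonneg _) this 2
    have hA1A2 : (A1.card : ℝ) ≤ (A'.card : ℝ) * ((cnt R A0 k : ℕ) : ℝ) ^ 2 :=
      hA1A'.trans (mul_le_mul_of_nonneg_left hPc2 (Nat.cast_nonneg _))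
    have hAA2 : (A.card : ℝ) ≤ (A'.card : ℝ) * ((R : ℝ) * ((cnt R A0 k : ℕ) : ℝ) ^ 2) := by
      calc (A.card : ℝ) ≤ (A1.card : ℝ) * (R : ℝ) := hAR
        _ ≤ (A'.card : ℝ) * ((cnt R A0 k : ℕ) : ℝ) ^ 2 * (R : ℝ) :=
          mul_le_mul_of_nonneg_right hA1A2 hRpos.le
        _ = (A'.card : ℝ) * ((R : ℝ) * ((cnt R A0 k : ℕ) : ℝ) ^ 2) := by ring
    have hA'pos : 0 < A'.card := by
      rcases Nat.eq_zero_or_pos A'.card with h | h
      · rw [h, Nat.cast_zero, zero_mul] at hA1A2
        have : (0 : ℝ) < (A1.card : ℝ) := by exact_mod_cast hA1pos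
        linarith
      · exact h
    have hRc : (0 : ℝ) < (R : ℝ) * ((cnt R A0 k : ℕ) : ℝ) ^ 2 := mul_pos hRpos hcnt2
    have hs0 : ∀ q, q ∉ S → s q = 0 := fun q hq => peelE_zero hsS hq
    have ht0 : ∀ q, q ∉ S → t q = 0 := fun q hq => peelE_zero htS hq
    obtain ⟨c2, H', Y, hH'c, hH', hYn, hY, hHY, hc⟩ := ih U' A'
      (α / ((R : ℝ) * ((cnt R A0 k : ℕ) : ℝ) ^ 2)) (Finset.card_pos.1 hA'pos)
      ((Finset.card_le_card (Finset.filter_subset _ _)).trans hUR) (div_pos hα0 hRc)
      (fun z hz => by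
        obtain ⟨h1, -, h3⟩ := hA' z hz
        refine hlow _ (hAD (hA1A h1)) z le_add_self fun q hq => ?_
        rw [Finsupp.add_apply, hs0 q (fun h => hq (hSU q h).1), zero_add])
      (fun a ha e hea hq => hlow a ha e hea fun q hqU => hq q fun h => hqU (hUU q h).1)
      (fun z hz q hq => by
        have h1 := hval _ (hA1A (hA' z hz).1) q (hUU q hq).1
        rw [Finsupp.add_apply] at h1
        omega)
      (fun z hz => by
        refine (hA1 _ (hA' z hz).1).2.trans (Finset.card_le_card fun q hq => ?_)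
        obtain ⟨h1, h2⟩ := Finset.mem_inter.1 hq
        have h3 := hUU q h2
        have h4 : q ∉ S := fun h => absurd (hSU q h).2 (by omega)
        rw [Finsupp.mem_support_iff, Finsupp.add_apply, hs0 q h4, zero_add] at h1
        exact Finset.mem_inter.2 ⟨Finsupp.mem_support_iff.2 h1, h2⟩)
      hgood'
      (by
        rw [div_mul_eq_mul_div, div_le_iff₀ hRc]
        exact hα.trans hAA2)
    have hH0 : ∀ h ∈ H', ∀ q, q < c1 → h q = 0 := by
      intro h hh q hq
      refine peelE_zero (hH' h hh).1 fun h1 => ?_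
      have h2 := (hUU q (Finset.mem_filter.1 h1).1).2
      omega
    have hmem : ∀ h : ℕ →₀ ℕ, h ∈ H'.image (fun h' => s + h') ∪ H'.image (fun h' => t + h') →
        ∃ u h', (u = s ∨ u = t) ∧ h' ∈ H' ∧ h = u + h' := by
      intro h hh
      rcases Finset.mem_union.1 hh with hh | hh
      · obtain ⟨h', h1, rfl⟩ := Finset.mem_image.1 hh
        exact ⟨s, h', Or.inl rfl, h1, rfl⟩
      · obtain ⟨h', h1, rfl⟩ := Finset.mem_image.1 hh
        exact ⟨t, h', Or.inr rfl, h1, rfl⟩
    refine ⟨max c1 c2, H'.image (fun h' => s + h') ∪ H'.image (fun h' => t + h'), Y, ?_, ?_, hYn,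
      ?_, ?_, ?_⟩
    · rw [Finset.card_union_of_disjoint, Finset.card_image_of_injective _ (add_right_injective s),
        Finset.card_image_of_injective _ (add_right_injective t), hH'c, List.length_cons, pow_succ]
      · ring
      · rw [Finset.disjoint_left]
        intro x hx hx'
        obtain ⟨h1, hh1, rfl⟩ := Finset.mem_image.1 hx
        obtain ⟨h2, hh2, h3⟩ := Finset.mem_image.1 hx'
        apply hst
        ext q
        by_cases hq : q ∈ S
        · have h4 := DFunLike.congr_fun h3 q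
          simp only [Finsupp.add_apply] at h4
          rw [hH0 h1 hh1 q (hSU q hq).2, hH0 h2 hh2 q (hSU q hq).2] at h4
          omega
        · rw [hs0 q hq, ht0 q hq]
    · intro h hh
      obtain ⟨u, h', hu, hh', rfl⟩ := hmem h hh
      have huP : u ∈ P := by
        rcases hu with rfl | rfl
        · exact hsP
        · exact htP
      obtain ⟨hu1, hu2, hu3⟩ := hpat u huP
      obtain ⟨hh1, hh2, hh3⟩ := hH' h' hh'
      refine ⟨fun q hq => ?_, ?_, fun q => ?_⟩
      · rcases Finset.mem_union.1 (Finsupp.support_add hq) with h1 | h1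
        · obtain ⟨h2, h3⟩ := hSU q (hu1 h1)
          exact Finset.mem_filter.2 ⟨h2, lt_of_lt_of_le h3 (le_max_left _ _)⟩
        · obtain ⟨h2, h3⟩ := Finset.mem_filter.1 (hh1 h1)
          exact Finset.mem_filter.2 ⟨(hUU q h2).1, lt_of_lt_of_le h3 (le_max_right _ _)⟩
      · rw [List.sum_cons]
        exact (Finset.card_le_card Finsupp.support_add).trans
          ((Finset.card_union_le _ _).trans (add_le_add hu2 hh2))
      · rw [Finsupp.add_apply]
        by_cases hq : q < c1
        · rw [hH0 h' hh' q hq, add_zero]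
          exact hu3 q
        · rw [peelE_zero hu1 (fun h => hq (hSU q h).2), zero_add]
          exact hh3 q
    · intro y hy
      obtain ⟨hy1, hy2⟩ := hY y hy
      refine ⟨hy1, fun q hqU hq => ?_⟩
      by_cases hq1 : q < c1
      · have hHn : 0 < H'.card := by
          rw [hH'c]
          positivity
        obtain ⟨h', hh'⟩ := Finset.card_pos.1 hHn
        have h1 := (hA' _ (hHY h' hh' y hy)).2.2 q (Finset.mem_filter.2 ⟨hqU, hq1⟩)
        rw [Finsupp.add_apply] at h1
        omega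
      · have h1 : q < c2 := by
          rcases lt_max_iff.1 hq with h | h
          · exact absurd h hq1
          · exact h
        exact hy2 q (Finset.mem_filter.2 ⟨hqU, not_lt.1 hq1⟩) h1
    · intro h hh y hy
      obtain ⟨u, h', hu, hh', rfl⟩ := hmem h hh
      rw [add_assoc]
      have h1 := hA' _ (hHY h' hh' y hy)
      rcases hu with rfl | rfl
      · exact hA1A h1.1
      · exact hA1A h1.2.1
    · have h1 : (A'.card : ℝ) * ((R : ℝ) * ((cnt R A0 k : ℕ) : ℝ) ^ 2) ≤
          (Y.card : ℝ) * loss R A0 ks * ((R : ℝ) * ((cnt R A0 k : ℕ) : ℝ) ^ 2) :=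
        mul_le_mul_of_nonneg_right hc hRc.le
      calc (A.card : ℝ) ≤ _ := hAA2
        _ ≤ _ := h1
        _ = (Y.card : ℝ) * loss R A0 (k :: ks) := by
          rw [loss]
          ring

end Pool.Agent.Helper89.DS
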