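import Pool.Agent.Helper89.DS.Defs

set_option autoImplicit false

/-! # Project DS: one peeling step -/

namespace Pool.Agent.Helper89.DS

open Finset

private theorem Step_card (P Z A : Finset (ℕ →₀ ℕ))
    (hinj : ∀ s ∈ P, ∀ s' ∈ P, ∀ z ∈ Z, ∀ z' ∈ Z, s + z = s' + z' → s = s' ∧ z = z')
    (hA : ∀ x ∈ A, ∃ s ∈ P, ∃ z ∈ Z, s + z = x) :
    ∑ z ∈ Z, (P.filter (fun s => s + z ∈ A)).card = A.card := by
  classical
  have h1 : ((P ×ˢ Z).filter (fun p => p.1 + p.2 ∈ A)).card =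
      ∑ z ∈ Z, (P.filter (fun s => s + z ∈ A)).card := by
    rw [Finset.card_filter, Finset.sum_product_right]
    refine Finset.sum_congr rfl fun z _ => ?_
    rw [Finset.card_filter]
  rw [← h1]
  refine Finset.card_nbij (fun p => p.1 + p.2) ?_ ?_ ?_
  · intro p hp
    exact (Finset.mem_filter.1 hp).2
  · intro p hp p' hp' h
    rw [Finset.mem_coe, Finset.mem_filter, Finset.mem_product] at hp hp'
    obtain ⟨h2, h3⟩ := hinj p.1 hp.1.1 p'.1 hp'.1.1 p.2 hp.1.2 p'.2 hp'.1.2 h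
    exact Prod.ext h2 h3
  · intro x hx
    obtain ⟨s, hs, z, hz, h⟩ := hA x hx
    refine ⟨(s, z), ?_, h⟩
    rw [Finset.mem_coe, Finset.mem_filter, Finset.mem_product]
    refine ⟨⟨hs, hz⟩, ?_⟩
    show s + z ∈ A
    rw [h]
    exact hx

private theorem Step_sq (P Z A : Finset (ℕ →₀ ℕ)) :
    ∑ z ∈ Z, (P.filter (fun s => s + z ∈ A)).card ^ 2 =
      ∑ s ∈ P, ∑ t ∈ P, (Z.filter (fun z => s + z ∈ A ∧ t + z ∈ A)).card := by
  classical
  have h1 : ∀ z, (P.filter (fun s => s + z ∈ A)).card ^ 2 =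
      ∑ s ∈ P, ∑ t ∈ P, (if s + z ∈ A ∧ t + z ∈ A then 1 else 0) := by
    intro z
    rw [sq, Finset.card_filter, Finset.sum_mul_sum]
    refine Finset.sum_congr rfl fun s _ => Finset.sum_congr rfl fun t _ => ?_
    by_cases h : s + z ∈ A <;> by_cases h' : t + z ∈ A <;> simp [h, h']
  have h2 : ∀ s t, (Z.filter (fun z => s + z ∈ A ∧ t + z ∈ A)).card =
      ∑ z ∈ Z, (if s + z ∈ A ∧ t + z ∈ A then 1 else 0) := fun s t => Finset.card_filter _ _
  calc ∑ z ∈ Z, (P.filter (fun s => s + z ∈ A)).card ^ 2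
      = ∑ z ∈ Z, ∑ s ∈ P, ∑ t ∈ P, (if s + z ∈ A ∧ t + z ∈ A then 1 else 0) :=
        Finset.sum_congr rfl fun z _ => h1 z
    _ = ∑ s ∈ P, ∑ z ∈ Z, ∑ t ∈ P, (if s + z ∈ A ∧ t + z ∈ A then 1 else 0) := Finset.sum_comm
    _ = ∑ s ∈ P, ∑ t ∈ P, ∑ z ∈ Z, (if s + z ∈ A ∧ t + z ∈ A then 1 else 0) :=
        Finset.sum_congr rfl fun s _ => Finset.sum_comm
    _ = _ := Finset.sum_congr rfl fun s _ => Finset.sum_congr rfl fun t _ => (h2 s t).symm

/-- the Cauchy-Schwarz step -/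
private theorem Step_cs (P Z A : Finset (ℕ →₀ ℕ))
    (hinj : ∀ s ∈ P, ∀ s' ∈ P, ∀ z ∈ Z, ∀ z' ∈ Z, s + z = s' + z' → s = s' ∧ z = z')
    (hA : ∀ x ∈ A, ∃ s ∈ P, ∃ z ∈ Z, s + z = x) (hZ : Z.Nonempty) (m : ℝ)
    (hm : (P.card : ℝ) ≤ m) (hcard : 2 * (Z.card : ℝ) ≤ (A.card : ℝ)) :
    ∃ s ∈ P, ∃ t ∈ P, s ≠ t ∧ (A.card : ℝ) ≤
      ((Z.filter (fun z => s + z ∈ A ∧ t + z ∈ A)).card : ℝ) * m ^ 2 := by
  classical
  by_contra hcon
  push Not at hcon
  set f : (ℕ →₀ ℕ) → ℕ := fun z => (P.filter (fun s => s + z ∈ A)).card with hf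
  set c : (ℕ →₀ ℕ) → (ℕ →₀ ℕ) → ℕ :=
    fun s t => (Z.filter (fun z => s + z ∈ A ∧ t + z ∈ A)).card with hc
  have hsum : ∑ z ∈ Z, f z = A.card := Step_card P Z A hinj hA
  have hsq : ∑ z ∈ Z, f z ^ 2 = ∑ s ∈ P, ∑ t ∈ P, c s t := Step_sq P Z A
  have hdiag : ∑ s ∈ P, c s s = A.card := by
    rw [← hsum]
    have h1 : ∀ s, c s s = ∑ z ∈ Z, (if s + z ∈ A then 1 else 0) := by
      intro s
      simp only [hc, and_self]
      exact Finset.card_filter _ _
    have h2 : ∀ z, f z = ∑ s ∈ P, (if s + z ∈ A then 1 else 0) := fun z => Finset.card_filter _ _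
    rw [Finset.sum_congr rfl fun s _ => h1 s, Finset.sum_congr rfl fun z _ => h2 z, Finset.sum_comm]
  set z : ℝ := (Z.card : ℝ) with hz
  set p : ℝ := (P.card : ℝ) with hp
  set a : ℝ := (A.card : ℝ) with ha
  have hz0 : 0 < z := by
    rw [hz]
    exact_mod_cast hZ.card_pos
  have ha0 : 0 < a := by linarith
  have hp1 : 1 ≤ p := by
    have hAn : A.Nonempty := by
      rw [← Finset.card_pos]
      rw [ha] at ha0
      exact_mod_cast ha0
    obtain ⟨x, hx⟩ := hAn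
    obtain ⟨s, hs, -⟩ := hA x hx
    rw [hp]
    exact_mod_cast Finset.card_pos.2 ⟨s, hs⟩
  have hm0 : 0 < m := by linarith
  have hm2 : 0 < m ^ 2 := by positivity
  -- Cauchy-Schwarz
  have hCS : a ^ 2 ≤ z * ∑ w ∈ Z, ((f w : ℝ)) ^ 2 := by
    have h := sq_sum_le_card_mul_sum_sq (s := Z) (f := fun w => (f w : ℝ))
    have h2 : ∑ w ∈ Z, (f w : ℝ) = a := by
      rw [ha, ← hsum]
      push_cast
      rfl
    rw [h2] at h
    exact h
  have hsq' : ∑ w ∈ Z, ((f w : ℝ)) ^ 2 = ∑ s ∈ P, ∑ t ∈ P, (c s t : ℝ) := by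
    have := congrArg (Nat.cast : ℕ → ℝ) hsq
    push_cast at this
    exact this
  have hdiag' : ∑ s ∈ P, (c s s : ℝ) = a := by
    have := congrArg (Nat.cast : ℕ → ℝ) hdiag
    push_cast at this
    exact this
  -- the off-diagonal terms
  have hrow : ∀ s ∈ P, ∑ t ∈ P, (c s t : ℝ) ≤ (c s s : ℝ) + (p - 1) * (a / m ^ 2) := by
    intro s hs
    rw [← Finset.add_sum_erase P (fun t => (c s t : ℝ)) hs]
    have h1 : ∑ t ∈ P.erase s, (c s t : ℝ) ≤ ∑ _t ∈ P.erase s, (a / m ^ 2) := by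
      refine Finset.sum_le_sum fun t ht => ?_
      rw [Finset.mem_erase] at ht
      rw [le_div_iff₀ hm2]
      exact (hcon s hs t ht.2 (Ne.symm ht.1)).le
    have h2 : ∑ _t ∈ P.erase s, (a / m ^ 2) = (p - 1) * (a / m ^ 2) := by
      rw [Finset.sum_const, Finset.card_erase_of_mem hs, nsmul_eq_mul]
      have h3 : 1 ≤ P.card := Finset.card_pos.2 ⟨s, hs⟩
      push_cast [h3]
      rfl
    linarith
  have hoff : ∑ s ∈ P, ∑ t ∈ P, (c s t : ℝ) ≤ a + p * ((p - 1) * (a / m ^ 2)) := by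
    refine (Finset.sum_le_sum hrow).trans ?_
    rw [Finset.sum_add_distrib, hdiag', Finset.sum_const, nsmul_eq_mul]
  rw [hsq'] at hCS
  have h4 : a ^ 2 ≤ z * (a + p * ((p - 1) * (a / m ^ 2))) :=
    hCS.trans (mul_le_mul_of_nonneg_left hoff hz0.le)
  have h5 : p * ((p - 1) * (a / m ^ 2)) < a := by
    have h6 : p * (p - 1) < m ^ 2 := by nlinarith
    have h7 : p * ((p - 1) * (a / m ^ 2)) = p * (p - 1) * a / m ^ 2 := by ring
    rw [h7, div_lt_iff₀ hm2, mul_comm a]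
    exact mul_lt_mul_of_pos_right h6 ha0
  have h8 : z * (a + p * ((p - 1) * (a / m ^ 2))) < z * (a + a) :=
    mul_lt_mul_of_pos_left (by linarith) hz0
  have h9 : z * (a + a) ≤ a ^ 2 := by nlinarith
  linarith

/-- the count of the parts outside `S` -/
private theorem Step_zcard (S : Finset ℕ) (k : ℕ) (D A : Finset (ℕ →₀ ℕ))
    (hlow : ∀ a ∈ A, ∀ e : ℕ →₀ ℕ, e ≤ a → (∀ q, q ∉ S → e q = a q) → e ∈ D)
    (hk : ∀ a ∈ A, k ≤ (a.support ∩ S).card) :
    (A.image (fun a => a.filter (fun q => q ∉ S))).card * 2 ^ k ≤ D.card := by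
  classical
  set Z := A.image (fun a => a.filter (fun q => q ∉ S)) with hZ
  have h1 : ∀ z ∈ Z, ∃ a ∈ A, a.filter (fun q => q ∉ S) = z := by
    intro z hz
    rw [hZ, Finset.mem_image] at hz
    exact hz
  choose! b hb hbz using h1
  have h2 : ∀ z ∈ Z, ∃ K ⊆ (b z).support ∩ S, K.card = k := fun z hz =>
    Finset.exists_subset_card_eq (hk _ (hb z hz))
  choose! K hK hKc using h2
  have h3 : (Z.sigma (fun z => (K z).powerset)).card = Z.card * 2 ^ k := by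
    rw [Finset.card_sigma, Finset.sum_congr rfl (fun z hz => by
      rw [Finset.card_powerset, hKc z hz]), Finset.sum_const, smul_eq_mul]
  rw [← h3]
  refine Finset.card_le_card_of_injOn
    (fun p : (Σ _ : ℕ →₀ ℕ, Finset ℕ) => (b p.1).filter (fun q => q ∉ S ∨ q ∈ p.2)) ?_ ?_
  · rintro ⟨z, T⟩ hp
    rw [Finset.mem_coe, Finset.mem_sigma] at hp
    refine Finset.mem_coe.2 (hlow (b z) (hb z hp.1) _ ?_ ?_)
    · intro q
      rw [Finsupp.filter_apply]
      split_ifs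
      · exact le_refl _
      · exact Nat.zero_le _
    · intro q hq
      exact Finsupp.filter_apply_pos _ _ (Or.inl hq)
  · rintro ⟨z, T⟩ hp ⟨z', T'⟩ hp' h
    rw [Finset.mem_coe, Finset.mem_sigma] at hp hp'
    obtain ⟨hz, hT⟩ := hp
    obtain ⟨hz', hT'⟩ := hp'
    rw [Finset.mem_powerset] at hT hT'
    simp only at hz hT hz' hT' h
    have key : ∀ (w : ℕ →₀ ℕ) (U : Finset ℕ), w ∈ Z →
        ((b w).filter (fun q => q ∉ S ∨ q ∈ U)).filter (fun q => q ∉ S) = w := by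
      intro w U hw
      conv_rhs => rw [← hbz w hw]
      ext q
      rw [Finsupp.filter_apply, Finsupp.filter_apply, Finsupp.filter_apply]
      by_cases hq : q ∈ S
      · rw [if_neg (by simpa using hq), if_neg (by simpa using hq)]
      · rw [if_pos hq, if_pos (Or.inl hq), if_pos hq]
    have hzz : z = z' := by
      rw [← key z T hz, h, key z' T' hz']
    subst hzz
    have hTT : T = T' := by
      ext q
      have hq1 := DFunLike.congr_fun h q
      rw [Finsupp.filter_apply, Finsupp.filter_apply] at hq1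
      have hmem : ∀ U : Finset ℕ, U ⊆ K z → q ∈ U → q ∈ S ∧ b z q ≠ 0 := by
        intro U hU hq
        have h4 := hK z hz (hU hq)
        rw [Finset.mem_inter, Finsupp.mem_support_iff] at h4
        exact ⟨h4.2, h4.1⟩
      constructor
      · intro hq
        obtain ⟨hqS, hq0⟩ := hmem T hT hq
        by_contra hq'
        rw [if_pos (Or.inr hq), if_neg (by tauto)] at hq1
        exact hq0 hq1
      · intro hq
        obtain ⟨hqS, hq0⟩ := hmem T' hT' hq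
        by_contra hq'
        rw [if_pos (Or.inr hq), if_neg (by tauto)] at hq1
        exact hq0 hq1.symm
    rw [hTT]

/-- One step. Let `Z` be the set of the parts `z` of the elements `a` of `A` outside `S`, `P'` the
set of their parts in `S` (`P' ⊆ P`). For `z ∈ Z`, choose `a ∈ A` with part `z`; for every subset
`s'` of `a.support ∩ S` the vector `z + (indicator of s')` is `≤ a` and equal to `a` outside `S`, so
it lies in `D`; these are different for different `(z, s')`, hence `2 ^ k |Z| ≤ |D|`. With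
`f z = #{s ∈ P' : s + z ∈ A}`: `∑ f = |A|`, `∑ f ^ 2 ≥ |A| ^ 2 / |Z|`, the diagonal is `|A|`, and
`|A| / |Z| ≥ α 2 ^ k ≥ 2`, so the sum over pairs `s ≠ t` of the number of `z` with
`s + z, t + z ∈ A` is at least `|A| ^ 2 / (2 |Z|) ≥ |A|`, and one of the at most `|P| ^ 2` pairs has
at least `|A| / |P| ^ 2`. -/
theorem step (S : Finset ℕ) (k : ℕ) (D A P : Finset (ℕ →₀ ℕ)) (hA : A.Nonempty)
    (hlow : ∀ a ∈ A, ∀ e : ℕ →₀ ℕ, e ≤ a → (∀ q, q ∉ S → e q = a q) → e ∈ D)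
    (hk : ∀ a ∈ A, k ≤ (a.support ∩ S).card)
    (hP : ∀ a ∈ A, a.filter (fun q => q ∈ S) ∈ P) (α : ℝ) (h2 : 2 ≤ α * 2 ^ k)
    (hα : α * (D.card : ℝ) ≤ (A.card : ℝ)) :
    ∃ s ∈ P, ∃ t ∈ P, s ≠ t ∧ s.support ⊆ S ∧ t.support ⊆ S ∧ ∃ A' : Finset (ℕ →₀ ℕ),
      (∀ z ∈ A', s + z ∈ A ∧ t + z ∈ A ∧ ∀ q ∈ S, z q = 0) ∧
      (A.card : ℝ) ≤ (A'.card : ℝ) * (P.card : ℝ) ^ 2 := by
  classical
  set Z := A.image (fun a => a.filter (fun q => q ∉ S)) with hZ
  set P' := A.image (fun a => a.filter (fun q => q ∈ S)) with hP'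
  have hsub : P' ⊆ P := by
    intro s hs
    rw [hP', Finset.mem_image] at hs
    obtain ⟨a, ha, rfl⟩ := hs
    exact hP a ha
  have hZ0 : ∀ z ∈ Z, ∀ q ∈ S, z q = 0 := by
    intro z hz q hq
    rw [hZ, Finset.mem_image] at hz
    obtain ⟨a, -, rfl⟩ := hz
    rw [Finsupp.filter_apply, if_neg (by simpa using hq)]
  have hP0 : ∀ s ∈ P', ∀ q, q ∉ S → s q = 0 := by
    intro s hs q hq
    rw [hP', Finset.mem_image] at hs
    obtain ⟨a, -, rfl⟩ := hs
    rw [Finsupp.filter_apply, if_neg hq]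
  have hPS : ∀ s ∈ P', s.support ⊆ S := by
    intro s hs q hq
    by_contra hqS
    exact (Finsupp.mem_support_iff.1 hq) (hP0 s hs q hqS)
  have hsum : ∀ a ∈ A, a.filter (fun q => q ∈ S) + a.filter (fun q => q ∉ S) = a := by
    intro a _
    exact Finsupp.filter_pos_add_filter_neg a _
  have hAZ : ∀ x ∈ A, ∃ s ∈ P', ∃ z ∈ Z, s + z = x := fun x hx =>
    ⟨_, Finset.mem_image_of_mem _ hx, _, Finset.mem_image_of_mem _ hx, hsum x hx⟩
  have hinj : ∀ s ∈ P', ∀ s' ∈ P', ∀ z ∈ Z, ∀ z' ∈ Z, s + z = s' + z' → s = s' ∧ z = z' := by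
    intro s hs s' hs' z hz z' hz' h
    have h3 : s = s' := by
      ext q
      by_cases hq : q ∈ S
      · have h4 := DFunLike.congr_fun h q
        rw [Finsupp.add_apply, Finsupp.add_apply, hZ0 z hz q hq, hZ0 z' hz' q hq, add_zero,
          add_zero] at h4
        exact h4
      · rw [hP0 s hs q hq, hP0 s' hs' q hq]
    subst h3
    exact ⟨rfl, add_left_cancel h⟩
  have hZn : Z.Nonempty := hA.image _
  have hαpos : 0 < α := by
    by_contra h
    have h3 : α * 2 ^ k ≤ 0 := mul_nonpos_of_nonpos_of_nonneg (not_lt.1 h) (by positivity)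
    linarith
  have hzc : (Z.card : ℝ) * 2 ^ k ≤ (D.card : ℝ) := by
    exact_mod_cast Step_zcard S k D A hlow hk
  have hcard : 2 * (Z.card : ℝ) ≤ (A.card : ℝ) := by
    have h3 : α * ((Z.card : ℝ) * 2 ^ k) ≤ α * (D.card : ℝ) :=
      mul_le_mul_of_nonneg_left hzc hαpos.le
    have h4 : 2 * (Z.card : ℝ) ≤ α * 2 ^ k * (Z.card : ℝ) :=
      mul_le_mul_of_nonneg_right h2 (Nat.cast_nonneg _)
    have h5 : α * 2 ^ k * (Z.card : ℝ) = α * ((Z.card : ℝ) * 2 ^ k) := by ring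
    linarith
  obtain ⟨s, hs, t, ht, hst, h3⟩ := Step_cs P' Z A hinj hAZ hZn (P.card : ℝ)
    (by exact_mod_cast Finset.card_le_card hsub) hcard
  refine ⟨s, hsub hs, t, hsub ht, hst, hPS s hs, hPS t ht,
    Z.filter (fun z => s + z ∈ A ∧ t + z ∈ A), ?_, ?_⟩
  · intro z hz
    rw [Finset.mem_filter] at hz
    exact ⟨hz.2.1, hz.2.2, hZ0 z hz.1⟩
  · convert h3

end Pool.Agent.Helper89.DS
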